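import Pool.Agent.R490.P3b

set_option autoImplicit false

/-!
# Sifted pairs with divisibility conditions, for general classes
-/

namespace Pool.Agent.L0h41.LW

open Finset Filter
open Pool.Agent.W123.RP Pool.Agent.H373R2.T7 Pool.Agent.W123.RU Pool.Agent.TH464.PO Pool.Agent.TH464.PW
open Pool.Agent.Y879.AP Pool.Agent.R490.Cls Pool.Agent.R490.P3a Pool.Agent.R490.P3b

open Classical in
/-- sifted integers in given classes modulo given primes -/
theorem cnt_cls (c : ℕ) (hc : 1 ≤ c) : ∃ C0 x0 : ℕ, 1 ≤ C0 ∧ ∀ b : ℕ, C0 ≤ b →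
    ∀ x y : ℕ, x0 ≤ y → y ^ (16 * (C0 * b)) ≤ x →
    ∀ Q : ℕ → ℕ → Prop, PerB Q c → ∀ (Z L : ℕ) (A : ℕ → ℕ → Prop), (∀ p n, A p n ↔ A p (n % p)) →
    ∀ S : Finset ℕ, (∀ p ∈ S, p.Prime ∧ y < p) → ∀ E a : ℕ, 1 ≤ E → (∀ p ∈ pz y, ¬ p ∣ E) →
    (∀ p ∈ S, ¬ p ∣ E) →
    |(((Ioc Z (Z + L)).filter (fun n : ℕ => n ≡ a [MOD E] ∧ Sf Q y n ∧ ∀ p ∈ S, A p n)).card : ℝ) -
      (L : ℝ) / E * (∏ p ∈ S, ((nuB A p : ℝ) / p)) * Vq Q y| ≤
      (1 / 2) ^ b * ((L : ℝ) / E * (∏ p ∈ S, ((nuB A p : ℝ) / p)) * Vq Q y) +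
        (∏ p ∈ S, (nuB A p : ℝ)) * √(x : ℝ) := by
  obtain ⟨C0, x0, hC0, H⟩ := cnt_ap c hc
  refine ⟨C0, x0, hC0, ?_⟩
  intro b hb x y hy hyx Q hQ Z L A hA S
  induction S using Finset.induction_on with
  | empty =>
    intro _ E a hE hEp _
    have h := H b hb x y hy hyx Q hQ Z L E a hE hEp
    simpa using h
  | insert p S hp ih =>
    intro hS E a hE hEp hES
    obtain ⟨hpp, hyp⟩ := hS p (mem_insert_self _ _)
    have hS' : ∀ p' ∈ S, p'.Prime ∧ y < p' := fun p' h => hS p' (mem_insert_of_mem h)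
    have hEp' : E.Coprime p := by
      rw [Nat.coprime_comm]
      exact (Nat.Prime.coprime_iff_not_dvd hpp).2 (hES p (mem_insert_self _ _))
    have hp0 : (0 : ℝ) < p := by exact_mod_cast hpp.pos
    have hE0 : (0 : ℝ) < E := by exact_mod_cast hE
    rw [prod_insert hp, prod_insert hp]
    obtain ⟨ρ, hρ⟩ : ∃ ρ, ρ = (range p).filter (fun r => A p r) := ⟨_, rfl⟩
    have hρc : nuB A p = ρ.card := by
      rw [hρ]
      unfold nuB
      congr
    -- fibres
    have h1 : ((Ioc Z (Z + L)).filter (fun n => n ≡ a [MOD E] ∧ Sf Q y n ∧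
        ∀ p' ∈ insert p S, A p' n)).card =
        ∑ r ∈ ρ, ((Ioc Z (Z + L)).filter (fun n => n ≡ (Nat.chineseRemainder hEp' a r : ℕ) [MOD (E * p)] ∧
          Sf Q y n ∧ ∀ p' ∈ S, A p' n)).card := by
      rw [card_eq_sum_card_fiberwise (f := fun n => n % p) (t := ρ)]
      · apply sum_congr rfl
        intro r hr
        rw [hρ, mem_filter, mem_range] at hr
        congr 1
        ext n
        simp only [mem_filter, mem_insert, forall_eq_or_imp]
        have hcr : n ≡ (Nat.chineseRemainder hEp' a r : ℕ) [MOD (E * p)] ↔ n ≡ a [MOD E] ∧ n ≡ r [MOD p] := by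
          constructor
          · intro h
            have k1 := (Nat.chineseRemainder hEp' a r).2.1
            have k2 := (Nat.chineseRemainder hEp' a r).2.2
            exact ⟨(h.of_mul_right p).trans k1, (h.of_mul_left E).trans k2⟩
          · rintro ⟨h1, h2⟩
            exact Nat.chineseRemainder_modEq_unique hEp' h1 h2
        have hmod : n ≡ r [MOD p] ↔ n % p = r := by
          unfold Nat.ModEq
          rw [Nat.mod_eq_of_lt hr.1]
        rw [hcr, hmod]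
        constructor
        · rintro ⟨⟨h1, h2, h0, h3, h4⟩, h5⟩
          exact ⟨h1, ⟨h2, h5⟩, h0, h4⟩
        · rintro ⟨h1, ⟨h2, h5⟩, h0, h4⟩
          exact ⟨⟨h1, h2, h0, by rw [hA, h5]; exact hr.2, h4⟩, h5⟩
      · intro n hn
        simp only [coe_filter, mem_Ioc, mem_insert, forall_eq_or_imp, Set.mem_ofPred_eq] at hn
        rw [hρ]
        simp only [coe_filter, mem_range, Set.mem_ofPred_eq]
        exact ⟨Nat.mod_lt _ hpp.pos, (hA p n).1 hn.2.2.2.1⟩
    rw [h1]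
    push_cast
    rw [hρc]
    obtain ⟨W, hW⟩ : ∃ W : ℝ, W = ∏ p' ∈ S, ((nuB A p' : ℝ) / p') := ⟨_, rfl⟩
    obtain ⟨W', hW'⟩ : ∃ W' : ℝ, W' = ∏ p' ∈ S, (nuB A p' : ℝ) := ⟨_, rfl⟩
    have h3 : ∀ r ∈ ρ, |(((Ioc Z (Z + L)).filter (fun n => n ≡ (Nat.chineseRemainder hEp' a r : ℕ) [MOD (E * p)] ∧
          Sf Q y n ∧ ∀ p' ∈ S, A p' n)).card : ℝ) - (L : ℝ) / ((E * p : ℕ) : ℝ) * W * Vq Q y| ≤
        (1 / 2) ^ b * ((L : ℝ) / ((E * p : ℕ) : ℝ) * W * Vq Q y) + W' * √(x : ℝ) := by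
      intro r _
      rw [hW, hW']
      apply ih hS' (E * p) _ (Nat.mul_pos hE hpp.pos)
      · intro p' hp' hd
        have hp'p := (mem_pz.1 hp').2
        rcases (Nat.Prime.dvd_mul hp'p).1 hd with h | h
        · exact hEp p' hp' h
        · rw [Nat.prime_dvd_prime_iff_eq hp'p hpp] at h
          have := (mem_pz.1 hp').1
          omega
      · intro p' hp' hd
        have hp'p := (hS' p' hp').1
        rcases (Nat.Prime.dvd_mul hp'p).1 hd with h | h
        · exact hES p' (mem_insert_of_mem hp') h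
        · rw [Nat.prime_dvd_prime_iff_eq hp'p hpp] at h
          exact hp (h ▸ hp')
    rw [← hW, ← hW']
    have h2 : (L : ℝ) / E * (((ρ.card : ℝ) / p) * W) * Vq Q y =
        ∑ r ∈ ρ, (L : ℝ) / ((E * p : ℕ) : ℝ) * W * Vq Q y := by
      rw [sum_const, nsmul_eq_mul]
      push_cast
      rw [← div_div]
      ring
    have h4 : (1 / 2 : ℝ) ^ b * ((L : ℝ) / E * (((ρ.card : ℝ) / p) * W) * Vq Q y) + (ρ.card : ℝ) * W' * √(x : ℝ) =
        ∑ r ∈ ρ, ((1 / 2 : ℝ) ^ b * ((L : ℝ) / ((E * p : ℕ) : ℝ) * W * Vq Q y) + W' * √(x : ℝ)) := by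
      rw [sum_const, nsmul_eq_mul]
      push_cast
      rw [← div_div]
      ring
    rw [h4, h2, ← sum_sub_distrib]
    exact (abs_sum_le_sum_abs _ _).trans (sum_le_sum h3)

/-- divisibility of the values -/
def DQ (F : ℕ → ℕ) (p m : ℕ) : Prop := p ∣ F m

/-- the weight of a set of primes -/
noncomputable def wt (F : ℕ → ℕ) (U : Finset ℕ) : ℝ := ∏ p ∈ U, ((nuB (DQ F) p : ℝ) / p)

/-- the number of roots -/
noncomputable def rr (F : ℕ → ℕ) (U : Finset ℕ) : ℝ := ∏ p ∈ U, (nuB (DQ F) p : ℝ)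

lemma dvd_iff (U : Finset ℕ) (hU : ∀ p ∈ U, p.Prime) (m : ℕ) : (∏ p ∈ U, p) ∣ m ↔ ∀ p ∈ U, p ∣ m := by
  constructor
  · intro h p hp
    exact (dvd_prod_of_mem (fun p => p) hp).trans h
  · intro h
    exact Finset.prod_primes_dvd m (fun p hp => (hU p hp).prime) h

open Classical in
/-- the count of pairs -/
theorem cnt_pair (c : ℕ) (hc : 1 ≤ c) : ∃ C0 x0 : ℕ, 1 ≤ C0 ∧ ∀ b : ℕ, C0 ≤ b →
    ∀ x y : ℕ, x0 ≤ y → y ^ (16 * (C0 * b)) ≤ x →
    ∀ F : ℕ → ℕ, PerB (DQ F) c → ∀ h h' Z L : ℕ, h ≠ h' → ∀ U U' : Finset ℕ, (∀ p ∈ U, p.Prime ∧ y < p) →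
      (∀ p ∈ U', p.Prime ∧ y < p) → Disjoint U U' →
    |(((Ioc Z (Z + L)).filter (fun n : ℕ => Sf (QH (DQ F) {h, h'}) y n ∧
        (∏ p ∈ U, p ∣ F (n + h)) ∧ (∏ p ∈ U', p ∣ F (n + h')))).card : ℝ) -
      (L : ℝ) * (wt F U * wt F U') * Vq (QH (DQ F) {h, h'}) y| ≤
      (1 / 2) ^ b * ((L : ℝ) * (wt F U * wt F U') * Vq (QH (DQ F) {h, h'}) y) +
        (rr F U * rr F U') * √(x : ℝ) := by
  obtain ⟨C0, x0, hC0, H⟩ := cnt_cls (2 * c) (by omega)
  refine ⟨C0, x0, hC0, ?_⟩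
  intro b hb x y hy hyx F hF h h' Z L hne U U' hU hU' hd
  have hper := perB_QH (DQ F) c hF {h, h'}
  rw [Finset.card_pair hne] at hper
  have hsh : ∀ (k : ℕ) (p n : ℕ), DQ F p (n + k) ↔ DQ F p (n % p + k) := by
    intro k p n
    exact per_add (DQ F) c hF p n (n % p) k k (Nat.mod_mod n p).symm rfl
  have key := H b hb x y hy hyx (QH (DQ F) {h, h'}) hper Z L
    (fun p n => if p ∈ U then DQ F p (n + h) else DQ F p (n + h')) (by
      intro p n
      split_ifs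
      · exact hsh h p n
      · exact hsh h' p n) (U ∪ U') (by
      intro p hp
      rcases mem_union.1 hp with h1 | h1
      · exact hU p h1
      · exact hU' p h1) 1 0 le_rfl (fun p hp hd => (mem_pz.1 hp).2.one_lt.ne' (Nat.dvd_one.1 hd))
      (fun p hp hd => by
        have hpp : p.Prime := by
          rcases mem_union.1 hp with h1 | h1
          · exact (hU p h1).1
          · exact (hU' p h1).1
        exact hpp.one_lt.ne' (Nat.dvd_one.1 hd))
  rw [Nat.cast_one, div_one, prod_union hd, prod_union hd] at key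
  have n1 : ∀ p ∈ U, nuB (fun p n => if p ∈ U then DQ F p (n + h) else DQ F p (n + h')) p = nuB (DQ F) p := by
    intro p hp
    rw [← nuB_shift (DQ F) c hF h p]
    unfold nuB
    apply card_iff
    intro r _
    show (if p ∈ U then DQ F p (r + h) else DQ F p (r + h')) ↔ DQ F p (r + h)
    rw [if_pos hp]
  have n2 : ∀ p ∈ U', nuB (fun p n => if p ∈ U then DQ F p (n + h) else DQ F p (n + h')) p = nuB (DQ F) p := by
    intro p hp
    rw [← nuB_shift (DQ F) c hF h' p]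
    unfold nuB
    apply card_iff
    intro r _
    show (if p ∈ U then DQ F p (r + h) else DQ F p (r + h')) ↔ DQ F p (r + h')
    rw [if_neg (fun h1 => disjoint_left.1 hd h1 hp)]
  have e1 : ∏ p ∈ U, ((nuB (fun p n => if p ∈ U then DQ F p (n + h) else DQ F p (n + h')) p : ℝ) / p) = wt F U :=
    prod_congr rfl fun p hp => by rw [n1 p hp]
  have e2 : ∏ p ∈ U', ((nuB (fun p n => if p ∈ U then DQ F p (n + h) else DQ F p (n + h')) p : ℝ) / p) = wt F U' :=
    prod_congr rfl fun p hp => by rw [n2 p hp]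
  have e3 : ∏ p ∈ U, (nuB (fun p n => if p ∈ U then DQ F p (n + h) else DQ F p (n + h')) p : ℝ) = rr F U :=
    prod_congr rfl fun p hp => by rw [n1 p hp]
  have e4 : ∏ p ∈ U', (nuB (fun p n => if p ∈ U then DQ F p (n + h) else DQ F p (n + h')) p : ℝ) = rr F U' :=
    prod_congr rfl fun p hp => by rw [n2 p hp]
  rw [e1, e2, e3, e4] at key
  have e5 : (Ioc Z (Z + L)).filter (fun n : ℕ => Sf (QH (DQ F) {h, h'}) y n ∧
        (∏ p ∈ U, p ∣ F (n + h)) ∧ (∏ p ∈ U', p ∣ F (n + h'))) =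
      (Ioc Z (Z + L)).filter (fun n : ℕ => n ≡ 0 [MOD 1] ∧ Sf (QH (DQ F) {h, h'}) y n ∧
        ∀ p ∈ U ∪ U', if p ∈ U then DQ F p (n + h) else DQ F p (n + h')) := by
    apply Finset.filter_congr
    intro n _
    rw [dvd_iff U (fun p hp => (hU p hp).1), dvd_iff U' (fun p hp => (hU' p hp).1)]
    constructor
    · rintro ⟨h1, h2, h3⟩
      refine ⟨Nat.modEq_one, h1, ?_⟩
      intro p hp
      by_cases hpU : p ∈ U
      · rw [if_pos hpU]
        exact h2 p hpU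
      · rw [if_neg hpU]
        exact h3 p ((mem_union.1 hp).resolve_left hpU)
    · rintro ⟨_, h1, h2⟩
      refine ⟨h1, ?_, ?_⟩
      · intro p hp
        have := h2 p (mem_union_left _ hp)
        rw [if_pos hp] at this
        exact this
      · intro p hp
        have := h2 p (mem_union_right _ hp)
        rw [if_neg (fun h1 => disjoint_left.1 hd h1 hp)] at this
        exact this
  rw [e5]
  convert key

end Pool.Agent.L0h41.LW
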