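import Pool.Agent.L0h41.LW.A
import Pool.Agent.R490.P3d

set_option autoImplicit false

/-!
# The off-diagonal terms
-/

namespace Pool.Agent.L0h41.LW

open Finset Filter
open Pool.Agent.W123.RP Pool.Agent.H373R2.T7 Pool.Agent.W123.RU Pool.Agent.TH464.PO Pool.Agent.TH464.PW
open Pool.Agent.Y879.AP
open Pool.Agent.R490.P3c (lam)

/-- the density -/
noncomputable def gp (F : ℕ → ℕ) (p : ℕ) : ℝ := (nuB (DQ F) p : ℝ) / p

lemma gp_nonneg (F : ℕ → ℕ) (p : ℕ) : 0 ≤ gp F p := by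
  unfold gp
  positivity

lemma wt_eq (F : ℕ → ℕ) (U : Finset ℕ) : wt F U = ∏ p ∈ U, gp F p := rfl

lemma wt_nonneg (F : ℕ → ℕ) (U : Finset ℕ) : 0 ≤ wt F U := by
  rw [wt_eq]
  exact prod_nonneg fun p _ => gp_nonneg F p

open Classical in
/-- the indicator function of the sifted numbers -/
noncomputable def rh (F : ℕ → ℕ) (y m : ℕ) : ℝ := if Sf (DQ F) y m then 1 else 0

/-- the weight at `n + h` -/
noncomputable def xx (F : ℕ → ℕ) (P : Finset ℕ) (a : Finset ℕ → ℝ) (y h n : ℕ) : ℝ :=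
  rh F y (n + h) * lam P a (F (n + h))

open Classical in
/-- the counts -/
noncomputable def NN (F : ℕ → ℕ) (y h h' Z L : ℕ) (U U' : Finset ℕ) : ℝ :=
  (((Ioc Z (Z + L)).filter (fun n : ℕ => Sf (QH (DQ F) {h, h'}) y n ∧
        (∏ p ∈ U, p ∣ F (n + h)) ∧ (∏ p ∈ U', p ∣ F (n + h')))).card : ℝ)

lemma sum_xx (F : ℕ → ℕ) (P : Finset ℕ) (a : Finset ℕ → ℝ) (y h h' Z L : ℕ) :
    ∑ n ∈ Ioc Z (Z + L), xx F P a y h n * xx F P a y h' n =
      ∑ U ∈ P.powerset, ∑ U' ∈ P.powerset, a U * a U' * NN F y h h' Z L U U' := by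
  classical
  have h1 : ∀ n, xx F P a y h n * xx F P a y h' n = ∑ U ∈ P.powerset, ∑ U' ∈ P.powerset,
      a U * a U' * (if Sf (DQ F) y (n + h) ∧ Sf (DQ F) y (n + h') ∧
        (∏ p ∈ U, p ∣ F (n + h)) ∧ (∏ p ∈ U', p ∣ F (n + h')) then 1 else 0) := by
    intro n
    unfold xx lam rh
    rw [show ∀ u v s t : ℝ, u * v * (s * t) = (u * s) * (v * t) by intros; ring, sum_mul_sum, mul_sum]
    apply sum_congr rfl
    intro U _
    rw [mul_sum]
    apply sum_congr rfl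
    intro U' _
    by_cases c1 : Sf (DQ F) y (n + h) <;> by_cases c2 : Sf (DQ F) y (n + h') <;>
      by_cases c3 : (∏ p ∈ U, p ∣ F (n + h)) <;> by_cases c4 : (∏ p ∈ U', p ∣ F (n + h')) <;>
      simp [c1, c2, c3, c4]
  rw [sum_congr rfl (fun n _ => h1 n), sum_comm]
  apply sum_congr rfl
  intro U _
  rw [sum_comm]
  apply sum_congr rfl
  intro U' _
  rw [← mul_sum]
  congr 1
  unfold NN
  rw [card_filter]
  push_cast
  apply sum_congr rfl
  intro n _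
  have hiff : (Sf (DQ F) y (n + h) ∧ Sf (DQ F) y (n + h') ∧
        (∏ p ∈ U, p ∣ F (n + h)) ∧ (∏ p ∈ U', p ∣ F (n + h'))) ↔
        (Sf (QH (DQ F) {h, h'}) y n ∧
        (∏ p ∈ U, p ∣ F (n + h)) ∧ (∏ p ∈ U', p ∣ F (n + h'))) := by
    rw [sf_QH]
    constructor
    · rintro ⟨c1, c2, c3⟩
      refine ⟨?_, c3⟩
      intro k hk
      rw [mem_insert, mem_singleton] at hk
      rcases hk with rfl | rfl
      · exact c1
      · exact c2
    · rintro ⟨c1, c3⟩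
      exact ⟨c1 h (by simp), c1 h' (by simp), c3⟩
  by_cases hA : (Sf (DQ F) y (n + h) ∧ Sf (DQ F) y (n + h') ∧
        (∏ p ∈ U, p ∣ F (n + h)) ∧ (∏ p ∈ U', p ∣ F (n + h')))
  · rw [if_pos hA, if_pos (hiff.1 hA)]
  · rw [if_neg hA, if_neg (fun h => hA (hiff.2 h))]

/-- the sum of the weights -/
noncomputable def Pi1 (F : ℕ → ℕ) (P : Finset ℕ) : ℝ := ∑ U ∈ P.powerset, wt F U

lemma Pi1_nonneg (F : ℕ → ℕ) (P : Finset ℕ) : 0 ≤ Pi1 F P := sum_nonneg fun V _ => wt_nonneg F V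

lemma sum_mem (F : ℕ → ℕ) (P : Finset ℕ) (p : ℕ) :
    ∑ U ∈ P.powerset, (if p ∈ U then wt F U else 0) ≤ gp F p * Pi1 F P := by
  classical
  rw [← sum_filter]
  have h1 : ∑ U ∈ P.powerset.filter (fun U => p ∈ U), wt F U =
      gp F p * ∑ U ∈ P.powerset.filter (fun U => p ∈ U), wt F (U.erase p) := by
    rw [mul_sum]
    apply sum_congr rfl
    intro U hU
    rw [mem_filter] at hU
    rw [wt_eq, wt_eq, ← mul_prod_erase U (fun p => gp F p) hU.2]
  rw [h1]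
  apply mul_le_mul_of_nonneg_left _ (gp_nonneg F p)
  have hinj : Set.InjOn (fun U : Finset ℕ => U.erase p) (P.powerset.filter (fun U => p ∈ U) : Set (Finset ℕ)) := by
    intro U hU V hV hUV
    rw [mem_coe, mem_filter] at hU hV
    have := congrArg (insert p) hUV
    simpa [insert_erase hU.2, insert_erase hV.2] using this
  rw [← sum_image (f := wt F) hinj]
  unfold Pi1
  apply sum_le_sum_of_subset_of_nonneg
  · intro V hV
    rw [mem_image] at hV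
    obtain ⟨U, hU, rfl⟩ := hV
    rw [mem_filter, mem_powerset] at hU
    rw [mem_powerset]
    exact (erase_subset _ _).trans hU.1
  · intro V _ _
    exact wt_nonneg F V

/-- the pairs with a common prime -/
lemma common (F : ℕ → ℕ) (c : ℕ) (hF : PerB (DQ F) c) (P : Finset ℕ) (y : ℕ) (hy : 1 ≤ y)
    (hP : ∀ p ∈ P, p.Prime ∧ y < p) :
    ∑ U ∈ P.powerset, ∑ U' ∈ P.powerset, (if Disjoint U U' then 0 else wt F U * wt F U') ≤
      Pi1 F P ^ 2 * (c * (∑ p ∈ P, gp F p) / y) := by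
  classical
  have hy0 : (0 : ℝ) < y := by exact_mod_cast hy
  have h1 : ∀ U ∈ P.powerset, ∀ U' ∈ P.powerset, (if Disjoint U U' then 0 else wt F U * wt F U') ≤
      ∑ p ∈ P, (if p ∈ U then wt F U else 0) * (if p ∈ U' then wt F U' else 0) := by
    intro U hU U' _
    have w1 := wt_nonneg F U
    have w2 := wt_nonneg F U'
    have hnn : ∀ p ∈ P, 0 ≤ (if p ∈ U then wt F U else 0) * (if p ∈ U' then wt F U' else 0) := by
      intro p _
      split_ifs <;> positivity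
    by_cases hd : Disjoint U U'
    · rw [if_pos hd]
      exact sum_nonneg hnn
    · rw [if_neg hd]
      rw [not_disjoint_iff] at hd
      obtain ⟨p, hp, hp'⟩ := hd
      have h2 := single_le_sum hnn (mem_powerset.1 hU hp)
      rw [if_pos hp, if_pos hp'] at h2
      exact h2
  have h2 : ∑ U ∈ P.powerset, ∑ U' ∈ P.powerset, (if Disjoint U U' then 0 else wt F U * wt F U') ≤
      ∑ U ∈ P.powerset, ∑ U' ∈ P.powerset,
        ∑ p ∈ P, (if p ∈ U then wt F U else 0) * (if p ∈ U' then wt F U' else 0) :=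
    sum_le_sum fun U hU => sum_le_sum fun U' hU' => h1 U hU U' hU'
  have h3 : ∑ U ∈ P.powerset, ∑ U' ∈ P.powerset,
        ∑ p ∈ P, (if p ∈ U then wt F U else 0) * (if p ∈ U' then wt F U' else 0) =
      ∑ p ∈ P, (∑ U ∈ P.powerset, (if p ∈ U then wt F U else 0)) ^ 2 := by
    have e1 : ∀ U ∈ P.powerset, ∑ U' ∈ P.powerset,
        ∑ p ∈ P, (if p ∈ U then wt F U else 0) * (if p ∈ U' then wt F U' else 0) =
        ∑ p ∈ P, ∑ U' ∈ P.powerset, (if p ∈ U then wt F U else 0) * (if p ∈ U' then wt F U' else 0) :=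
      fun U _ => sum_comm
    rw [sum_congr rfl e1, sum_comm]
    apply sum_congr rfl
    intro p _
    rw [sq, sum_mul_sum]
  have h4 : ∀ p ∈ P, (∑ U ∈ P.powerset, (if p ∈ U then wt F U else 0)) ^ 2 ≤
      Pi1 F P ^ 2 * (gp F p * (c / y)) := by
    intro p hp
    have hp0 : (0 : ℝ) < p := by exact_mod_cast (hP p hp).1.pos
    have hyp : (y : ℝ) ≤ p := by exact_mod_cast (hP p hp).2.le
    have g1 := sum_mem F P p
    have g0 : 0 ≤ ∑ U ∈ P.powerset, (if p ∈ U then wt F U else 0) := by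
      apply sum_nonneg
      intro U _
      have := wt_nonneg F U
      split_ifs <;> linarith
    have g2 : gp F p ≤ c / y := by
      unfold gp
      apply div_le_div₀ (Nat.cast_nonneg _) (by exact_mod_cast hF.few p (hP p hp).1) hy0 hyp
    calc (∑ U ∈ P.powerset, (if p ∈ U then wt F U else 0)) ^ 2 ≤ (gp F p * Pi1 F P) ^ 2 :=
          pow_le_pow_left₀ g0 g1 2
      _ = Pi1 F P ^ 2 * (gp F p * gp F p) := by ring
      _ ≤ Pi1 F P ^ 2 * (gp F p * (c / y)) := by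
          apply mul_le_mul_of_nonneg_left _ (sq_nonneg _)
          exact mul_le_mul_of_nonneg_left g2 (gp_nonneg F p)
  calc _ ≤ _ := h2
    _ = _ := h3
    _ ≤ ∑ p ∈ P, Pi1 F P ^ 2 * (gp F p * (c / y)) := sum_le_sum h4
    _ = _ := by
        rw [← mul_sum, ← sum_mul]
        ring

/-- the number of roots -/
lemma rr_le (F : ℕ → ℕ) (c : ℕ) (hc : 1 ≤ c) (hF : PerB (DQ F) c) (P : Finset ℕ) (y R0 D : ℕ) (hy : 1 ≤ y)
    (hP : ∀ p ∈ P, p.Prime ∧ y < p) (hD : D ≤ y ^ R0) (U : Finset ℕ) (hU : U ⊆ P) (hUD : ∏ p ∈ U, p ≤ D) :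
    rr F U ≤ (c : ℝ) ^ R0 := by
  have hcard : U.card ≤ R0 := by
    have h1 : (y + 1) ^ U.card ≤ ∏ p ∈ U, p := Finset.pow_card_le_prod _ _ _ (fun p hp => by
      have := (hP p (hU hp)).2
      omega)
    have h2 := h1.trans (hUD.trans hD)
    by_contra hc
    rw [not_le] at hc
    have h3 : (y + 1) ^ (R0 + 1) ≤ (y + 1) ^ U.card := Nat.pow_le_pow_right (by omega) hc
    have h4 : (y + 1) ^ R0 < (y + 1) ^ (R0 + 1) := Nat.pow_lt_pow_right (by omega) (by omega)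
    have h5 : y ^ R0 ≤ (y + 1) ^ R0 := Nat.pow_le_pow_left (by omega) _
    omega
  have hc1 : (1 : ℝ) ≤ c := by exact_mod_cast hc
  unfold rr
  calc ∏ p ∈ U, (nuB (DQ F) p : ℝ) ≤ ∏ _p ∈ U, (c : ℝ) :=
        prod_le_prod (fun _ _ => Nat.cast_nonneg _) (fun p hp => by
          exact_mod_cast hF.few p (hP p (hU hp)).1)
    _ = (c : ℝ) ^ U.card := by rw [prod_const]
    _ ≤ (c : ℝ) ^ R0 := pow_le_pow_right₀ hc1 hcard

/-- the number of the coefficients -/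
lemma sum_abs (F : ℕ → ℕ) (c : ℕ) (hc : 1 ≤ c) (hF : PerB (DQ F) c) (P : Finset ℕ) (y R0 : ℕ) (hy : 1 ≤ y)
    (hP : ∀ p ∈ P, p.Prime ∧ y < p) (a : Finset ℕ → ℝ) (A : ℝ) (D : ℕ)
    (hA : ∀ U, |a U| ≤ A) (hD : ∀ U ⊆ P, a U ≠ 0 → ∏ p ∈ U, p ≤ D) (hDy : D ≤ y ^ R0) :
    ∑ U ∈ P.powerset, |a U| * rr F U ≤ A * ((c : ℝ) ^ R0 * D) := by
  classical
  have hA0 : 0 ≤ A := (abs_nonneg _).trans (hA ∅)
  have h1 : ∑ U ∈ P.powerset, |a U| * rr F U ≤ ∑ U ∈ P.powerset, |a U| * (c : ℝ) ^ R0 := by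
    apply sum_le_sum
    intro U hU
    by_cases h : a U = 0
    · rw [h, abs_zero, zero_mul, zero_mul]
    · exact mul_le_mul_of_nonneg_left (rr_le F c hc hF P y R0 D hy hP hDy U (mem_powerset.1 hU)
        (hD U (mem_powerset.1 hU) h)) (abs_nonneg _)
  refine h1.trans ?_
  rw [← sum_mul]
  have h2 := Pool.Agent.R490.P3c.sum_abs P (fun p hp => (hP p hp).1) a A D hA hD
  calc (∑ U ∈ P.powerset, |a U|) * (c : ℝ) ^ R0 ≤ (A * D) * (c : ℝ) ^ R0 :=
        mul_le_mul_of_nonneg_right h2 (by positivity)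
    _ = _ := by ring

/-- **The off-diagonal terms.** -/
theorem off (c : ℕ) (hc : 1 ≤ c) : ∃ C0 x0 : ℕ, 1 ≤ C0 ∧ ∀ b : ℕ, C0 ≤ b →
    ∀ x y : ℕ, x0 ≤ y → 1 ≤ y → y ^ (16 * (C0 * b)) ≤ x → ∀ F : ℕ → ℕ, PerB (DQ F) c →
    ∀ (T Z L R0 : ℕ) (P : Finset ℕ) (a : Finset ℕ → ℝ) (A : ℝ) (D : ℕ),
      (∀ n h h' : ℕ, h ≠ h' → h ≤ T → h' ≤ T → ∀ p : ℕ, p.Prime → y < p → p ∣ F (n + h) →
        p ∣ F (n + h') → False) →
      (∀ p ∈ P, p.Prime ∧ y < p) → (∀ U, |a U| ≤ A) →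
      (∀ U ⊆ P, a U ≠ 0 → ∏ p ∈ U, p ≤ D) → D ≤ y ^ R0 → ∑ U ∈ P.powerset, a U * wt F U = 0 →
      ∀ h h' : ℕ, h ≠ h' → h ≤ T → h' ≤ T →
      |∑ n ∈ Ioc Z (Z + L), xx F P a y h n * xx F P a y h' n| ≤
        L * Vq (QH (DQ F) {h, h'}) y * (A ^ 2 * (Pi1 F P ^ 2 * (c * (∑ p ∈ P, gp F p) / y)) +
          (1 / 2) ^ b * (A * Pi1 F P) ^ 2) + √(x : ℝ) * (A * ((c : ℝ) ^ R0 * D)) ^ 2 := by
  classical
  obtain ⟨C0, x0, hC0, H⟩ := cnt_pair c hc
  refine ⟨C0, x0, hC0, ?_⟩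
  intro b hb x y hy hy1 hyx F hF T Z L R0 P a A D hnc hP hA hD hDy hsum h h' hne hh hh'
  have hA0 : 0 ≤ A := (abs_nonneg _).trans (hA ∅)
  rw [sum_xx]
  obtain ⟨M, hM⟩ : ∃ M : ℝ, M = L * Vq (QH (DQ F) {h, h'}) y := ⟨_, rfl⟩
  have hM0 : 0 ≤ M := by rw [hM]; exact mul_nonneg (Nat.cast_nonneg _) (Vq_nonneg _ _)
  rw [← hM]
  have hrr0 : ∀ U, 0 ≤ rr F U := fun U => prod_nonneg fun _ _ => Nat.cast_nonneg _
  have hN : ∀ U ∈ P.powerset, ∀ U' ∈ P.powerset,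
      |NN F y h h' Z L U U' - M * (if Disjoint U U' then wt F U * wt F U' else 0)| ≤
        (1 / 2) ^ b * (M * (wt F U * wt F U')) + (rr F U * rr F U') * √(x : ℝ) := by
    intro U hU U' hU'
    have w1 := wt_nonneg F U
    have w2 := wt_nonneg F U'
    have w3 := hrr0 U
    have w4 := hrr0 U'
    by_cases hd : Disjoint U U'
    · rw [if_pos hd]
      have h1 := H b hb x y hy hyx F hF h h' Z L hne U U'
        (fun p hp => hP p (mem_powerset.1 hU hp))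
        (fun p hp => hP p (mem_powerset.1 hU' hp)) hd
      have e1 : (L : ℝ) * (wt F U * wt F U') * Vq (QH (DQ F) {h, h'}) y =
          M * (wt F U * wt F U') := by
        rw [hM]
        ring
      rw [e1] at h1
      exact h1
    · rw [if_neg hd, mul_zero, sub_zero]
      have h0 : NN F y h h' Z L U U' = 0 := by
        unfold NN
        rw [Nat.cast_eq_zero, card_eq_zero, filter_eq_empty_iff]
        rintro n _ ⟨_, h2, h3⟩
        rw [not_disjoint_iff] at hd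
        obtain ⟨p, hp, hp'⟩ := hd
        have h4 := hP p (mem_powerset.1 hU hp)
        exact hnc n h h' hne hh hh' p h4.1 h4.2
          ((dvd_prod_of_mem (fun p => p) hp).trans h2) ((dvd_prod_of_mem (fun p => p) hp').trans h3)
      rw [h0, abs_zero]
      positivity
  -- the main term
  have hmain : |∑ U ∈ P.powerset, ∑ U' ∈ P.powerset, a U * a U' *
      (M * (if Disjoint U U' then wt F U * wt F U' else 0))| ≤
      M * (A ^ 2 * (Pi1 F P ^ 2 * (c * (∑ p ∈ P, gp F p) / y))) := by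
    have e1 : ∑ U ∈ P.powerset, ∑ U' ∈ P.powerset, a U * a U' *
        (M * (if Disjoint U U' then wt F U * wt F U' else 0)) =
        M * ((∑ U ∈ P.powerset, a U * wt F U) * (∑ U' ∈ P.powerset, a U' * wt F U')) -
        M * ∑ U ∈ P.powerset, ∑ U' ∈ P.powerset, a U * a U' *
          (if Disjoint U U' then 0 else wt F U * wt F U') := by
      rw [sum_mul_sum, mul_sum, mul_sum, ← sum_sub_distrib]
      apply sum_congr rfl
      intro U _
      rw [mul_sum, mul_sum, ← sum_sub_distrib]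
      apply sum_congr rfl
      intro U' _
      split_ifs <;> ring
    rw [e1, hsum, zero_mul, mul_zero, zero_sub, abs_neg, abs_mul, abs_of_nonneg hM0]
    apply mul_le_mul_of_nonneg_left _ hM0
    have h2 : |∑ U ∈ P.powerset, ∑ U' ∈ P.powerset, a U * a U' *
          (if Disjoint U U' then 0 else wt F U * wt F U')| ≤
        ∑ U ∈ P.powerset, ∑ U' ∈ P.powerset, A ^ 2 * (if Disjoint U U' then 0 else wt F U * wt F U') := by
      refine (abs_sum_le_sum_abs _ _).trans (sum_le_sum fun U hU => ?_)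
      refine (abs_sum_le_sum_abs _ _).trans (sum_le_sum fun U' hU' => ?_)
      have w1 := wt_nonneg F U
      have w2 := wt_nonneg F U'
      rw [abs_mul]
      have h3 : |a U * a U'| ≤ A ^ 2 := by
        rw [abs_mul, sq]
        exact mul_le_mul (hA U) (hA U') (abs_nonneg _) hA0
      have h4 : 0 ≤ (if Disjoint U U' then 0 else wt F U * wt F U') := by
        split_ifs <;> positivity
      rw [abs_of_nonneg h4]
      exact mul_le_mul_of_nonneg_right h3 h4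
    refine h2.trans ?_
    simp only [← mul_sum]
    apply mul_le_mul_of_nonneg_left _ (sq_nonneg A)
    exact common F c hF P y hy1 hP
  -- the error
  have herr : |∑ U ∈ P.powerset, ∑ U' ∈ P.powerset, a U * a U' *
      (NN F y h h' Z L U U' - M * (if Disjoint U U' then wt F U * wt F U' else 0))| ≤
      (1 / 2) ^ b * M * (A * Pi1 F P) ^ 2 + √(x : ℝ) * (A * ((c : ℝ) ^ R0 * D)) ^ 2 := by
    have h2 : |∑ U ∈ P.powerset, ∑ U' ∈ P.powerset, a U * a U' *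
        (NN F y h h' Z L U U' - M * (if Disjoint U U' then wt F U * wt F U' else 0))| ≤
        ∑ U ∈ P.powerset, ∑ U' ∈ P.powerset, ((1 / 2) ^ b * M * ((A * wt F U) * (A * wt F U')) +
          √(x : ℝ) * ((|a U| * rr F U) * (|a U'| * rr F U'))) := by
      refine (abs_sum_le_sum_abs _ _).trans (sum_le_sum fun U hU => ?_)
      refine (abs_sum_le_sum_abs _ _).trans (sum_le_sum fun U' hU' => ?_)
      have w1 := wt_nonneg F U
      have w2 := wt_nonneg F U'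
      rw [abs_mul, abs_mul]
      have h3 : |a U| * |a U'| ≤ A * A := mul_le_mul (hA U) (hA U') (abs_nonneg _) hA0
      calc |a U| * |a U'| * |NN F y h h' Z L U U' - M * (if Disjoint U U' then wt F U * wt F U' else 0)| ≤
          |a U| * |a U'| * ((1 / 2) ^ b * (M * (wt F U * wt F U')) + (rr F U * rr F U') * √(x : ℝ)) :=
            mul_le_mul_of_nonneg_left (hN U hU U' hU') (by positivity)
        _ = |a U| * |a U'| * ((1 / 2) ^ b * (M * (wt F U * wt F U'))) +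
            √(x : ℝ) * ((|a U| * rr F U) * (|a U'| * rr F U')) := by ring
        _ ≤ A * A * ((1 / 2) ^ b * (M * (wt F U * wt F U'))) +
            √(x : ℝ) * ((|a U| * rr F U) * (|a U'| * rr F U')) := by
            apply add_le_add _ le_rfl
            exact mul_le_mul_of_nonneg_right h3 (by positivity)
        _ = _ := by ring
    refine h2.trans ?_
    have e2 : ∑ U ∈ P.powerset, ∑ U' ∈ P.powerset, ((1 / 2) ^ b * M * ((A * wt F U) * (A * wt F U')) +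
          √(x : ℝ) * ((|a U| * rr F U) * (|a U'| * rr F U'))) =
        (1 / 2) ^ b * M * ((∑ U ∈ P.powerset, A * wt F U) * (∑ U ∈ P.powerset, A * wt F U)) +
          √(x : ℝ) * ((∑ U ∈ P.powerset, |a U| * rr F U) * (∑ U ∈ P.powerset, |a U| * rr F U)) := by
      rw [sum_mul_sum, sum_mul_sum, mul_sum, mul_sum, ← sum_add_distrib]
      apply sum_congr rfl
      intro U _
      rw [mul_sum, mul_sum, ← sum_add_distrib]
    rw [e2, ← mul_sum, ← sq, ← sq]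
    apply add_le_add
    · exact le_of_eq rfl
    · apply mul_le_mul_of_nonneg_left _ (Real.sqrt_nonneg _)
      apply pow_le_pow_left₀ (sum_nonneg fun U _ => mul_nonneg (abs_nonneg _) (hrr0 U))
      exact sum_abs F c hc hF P y R0 hy1 hP a A D hA hD hDy
  have e3 : ∑ U ∈ P.powerset, ∑ U' ∈ P.powerset, a U * a U' * NN F y h h' Z L U U' =
      ∑ U ∈ P.powerset, ∑ U' ∈ P.powerset, a U * a U' *
      (M * (if Disjoint U U' then wt F U * wt F U' else 0)) +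
      ∑ U ∈ P.powerset, ∑ U' ∈ P.powerset, a U * a U' *
      (NN F y h h' Z L U U' - M * (if Disjoint U U' then wt F U * wt F U' else 0)) := by
    rw [← sum_add_distrib]
    apply sum_congr rfl
    intro U _
    rw [← sum_add_distrib]
    apply sum_congr rfl
    intro U' _
    ring
  rw [e3]
  refine (abs_add_le _ _).trans ?_
  calc _ ≤ M * (A ^ 2 * (Pi1 F P ^ 2 * (c * (∑ p ∈ P, gp F p) / y))) +
        ((1 / 2) ^ b * M * (A * Pi1 F P) ^ 2 + √(x : ℝ) * (A * ((c : ℝ) ^ R0 * D)) ^ 2) :=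
        add_le_add hmain herr
    _ = _ := by ring

/-- the total weight -/
noncomputable def XX (F : ℕ → ℕ) (P : Finset ℕ) (a : Finset ℕ → ℝ) (y T n : ℕ) : ℝ :=
  ∑ h ∈ Icc 1 T, xx F P a y h n

lemma W_rh (F : ℕ → ℕ) (y T n : ℕ) : (Wc (Sf (DQ F) y) n T : ℝ) = ∑ h ∈ Icc 1 T, rh F y (n + h) := by
  classical
  have h1 := Nw_Qt (DQ F) y T n 0
  rw [zero_add] at h1
  rw [← h1]
  unfold Nw rh
  rw [card_filter]
  push_cast
  apply sum_congr rfl
  intro h _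
  congr 1
  rw [sf_Qt, zero_add, add_comm h n]

/-- **The second moment.** -/
theorem second (c : ℕ) (hc : 1 ≤ c) : ∃ C0 x0 : ℕ, 1 ≤ C0 ∧ ∀ b : ℕ, C0 ≤ b →
    ∀ x y : ℕ, x0 ≤ y → 1 ≤ y → y ^ (16 * (C0 * b)) ≤ x → ∀ F : ℕ → ℕ, PerB (DQ F) c →
    ∀ (T Z L R0 : ℕ) (P : Finset ℕ) (a : Finset ℕ → ℝ) (A : ℝ) (D : ℕ),
      (∀ n h h' : ℕ, h ≠ h' → h ≤ T → h' ≤ T → ∀ p : ℕ, p.Prime → y < p → p ∣ F (n + h) →
        p ∣ F (n + h') → False) →
      (∀ p ∈ P, p.Prime ∧ y < p) → (∀ U, |a U| ≤ A) →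
      (∀ U ⊆ P, a U ≠ 0 → ∏ p ∈ U, p ≤ D) → D ≤ y ^ R0 → ∑ U ∈ P.powerset, a U * wt F U = 0 →
      (∀ m ∈ Ioc Z (Z + L + T), 1 ≤ F m ∧ F m ≤ y ^ R0) →
      ∑ n ∈ Ioc Z (Z + L), XX F P a y T n ^ 2 ≤
        (A * 2 ^ R0) ^ 2 * ∑ n ∈ Ioc Z (Z + L), (Wc (Sf (DQ F) y) n T : ℝ) +
        2 * (L * (A ^ 2 * (Pi1 F P ^ 2 * (c * (∑ p ∈ P, gp F p) / y)) +
          (1 / 2) ^ b * (A * Pi1 F P) ^ 2) *
          ∑ H ∈ powersetCard 2 (Icc 1 T), Vq (QH (DQ F) H) y) +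
        (T : ℝ) ^ 2 * (√(x : ℝ) * (A * ((c : ℝ) ^ R0 * D)) ^ 2) := by
  classical
  obtain ⟨C0, x0, hC0, H⟩ := off c hc
  refine ⟨C0, x0, hC0, ?_⟩
  intro b hb x y hy hy1 hyx F hF T Z L R0 P a A D hnc hP hA hD hDy hsum hR0
  have hA0 : 0 ≤ A := (abs_nonneg _).trans (hA ∅)
  obtain ⟨e, he⟩ : ∃ e : ℝ, e = A ^ 2 * (Pi1 F P ^ 2 * (c * (∑ p ∈ P, gp F p) / y)) +
          (1 / 2) ^ b * (A * Pi1 F P) ^ 2 := ⟨_, rfl⟩
  have he0 : 0 ≤ e := by
    rw [he]
    have : 0 ≤ ∑ p ∈ P, gp F p := sum_nonneg fun p _ => gp_nonneg F p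
    positivity
  rw [← he]
  have h1 : ∑ n ∈ Ioc Z (Z + L), XX F P a y T n ^ 2 = ∑ h ∈ Icc 1 T, ∑ h' ∈ Icc 1 T,
      ∑ n ∈ Ioc Z (Z + L), xx F P a y h n * xx F P a y h' n := by
    have e1 : ∀ n, XX F P a y T n ^ 2 = ∑ h ∈ Icc 1 T, ∑ h' ∈ Icc 1 T,
        xx F P a y h n * xx F P a y h' n := by
      intro n
      unfold XX
      rw [sq, sum_mul_sum]
    rw [sum_congr rfl (fun n _ => e1 n), sum_comm]
    apply sum_congr rfl
    intro h _
    rw [sum_comm]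
  rw [h1]
  have hdiag : ∀ h ∈ Icc 1 T, ∑ n ∈ Ioc Z (Z + L), xx F P a y h n * xx F P a y h n ≤
      (A * 2 ^ R0) ^ 2 * ∑ n ∈ Ioc Z (Z + L), rh F y (n + h) := by
    intro h hh
    rw [mem_Icc] at hh
    rw [mul_sum]
    apply sum_le_sum
    intro n hn
    rw [mem_Ioc] at hn
    obtain ⟨h2, h2'⟩ := hR0 (n + h) (by rw [mem_Ioc]; omega)
    have h3 := Pool.Agent.R490.P3d.lam_le P a A y R0 (F (n + h)) hP hA h2 h2'
    have h4 : lam P a (F (n + h)) ^ 2 ≤ (A * 2 ^ R0) ^ 2 := by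
      rw [← sq_abs]
      exact pow_le_pow_left₀ (abs_nonneg _) h3 2
    unfold xx
    have h5 : rh F y (n + h) * rh F y (n + h) = rh F y (n + h) := by
      unfold rh
      split_ifs <;> simp
    have h6 : 0 ≤ rh F y (n + h) := by
      unfold rh
      split_ifs <;> norm_num
    calc rh F y (n + h) * lam P a (F (n + h)) * (rh F y (n + h) * lam P a (F (n + h))) =
        lam P a (F (n + h)) ^ 2 * (rh F y (n + h) * rh F y (n + h)) := by ring
      _ = lam P a (F (n + h)) ^ 2 * rh F y (n + h) := by rw [h5]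
      _ ≤ _ := mul_le_mul_of_nonneg_right h4 h6
  have hoff : ∀ h ∈ Icc 1 T, ∀ h' ∈ Icc 1 T, h ≠ h' →
      ∑ n ∈ Ioc Z (Z + L), xx F P a y h n * xx F P a y h' n ≤
      L * Vq (QH (DQ F) {h, h'}) y * e + √(x : ℝ) * (A * ((c : ℝ) ^ R0 * D)) ^ 2 := by
    intro h hh h' hh' hne
    rw [mem_Icc] at hh hh'
    have h2 := H b hb x y hy hy1 hyx F hF T Z L R0 P a A D hnc hP hA hD hDy hsum h h' hne hh.2 hh'.2
    rw [← he] at h2
    exact (le_abs_self _).trans h2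
  have h2 : ∀ h ∈ Icc 1 T, ∑ h' ∈ Icc 1 T, ∑ n ∈ Ioc Z (Z + L), xx F P a y h n * xx F P a y h' n ≤
      (A * 2 ^ R0) ^ 2 * ∑ n ∈ Ioc Z (Z + L), rh F y (n + h) +
      ∑ h' ∈ Icc 1 T, ((if h = h' then 0 else L * Vq (QH (DQ F) {h, h'}) y * e) +
        √(x : ℝ) * (A * ((c : ℝ) ^ R0 * D)) ^ 2) := by
    intro h hh
    have e1 : (A * 2 ^ R0) ^ 2 * ∑ n ∈ Ioc Z (Z + L), rh F y (n + h) =
        ∑ h' ∈ Icc 1 T, (if h = h' then (A * 2 ^ R0) ^ 2 * ∑ n ∈ Ioc Z (Z + L), rh F y (n + h) else 0) := by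
      rw [sum_ite_eq, if_pos hh]
    rw [e1, ← sum_add_distrib]
    apply sum_le_sum
    intro h' hh'
    by_cases hne : h = h'
    · subst hne
      rw [if_pos rfl, if_pos rfl]
      have g1 := hdiag h hh
      have g2 : 0 ≤ √(x : ℝ) * (A * ((c : ℝ) ^ R0 * D)) ^ 2 := by positivity
      linarith
    · rw [if_neg hne, if_neg hne, zero_add]
      exact hoff h hh h' hh' hne
  refine (sum_le_sum h2).trans ?_
  rw [sum_add_distrib, ← mul_sum]
  have e3 : ∑ h ∈ Icc 1 T, ∑ n ∈ Ioc Z (Z + L), rh F y (n + h) =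
      ∑ n ∈ Ioc Z (Z + L), (Wc (Sf (DQ F) y) n T : ℝ) := by
    rw [sum_comm]
    exact sum_congr rfl fun n _ => (W_rh F y T n).symm
  rw [e3]
  have e4 : ∑ h ∈ Icc 1 T, ∑ h' ∈ Icc 1 T, ((if h = h' then 0 else L * Vq (QH (DQ F) {h, h'}) y * e) +
        √(x : ℝ) * (A * ((c : ℝ) ^ R0 * D)) ^ 2) =
      ∑ h ∈ Icc 1 T, ∑ h' ∈ Icc 1 T, (if h = h' then 0 else L * Vq (QH (DQ F) {h, h'}) y * e) +
        (T : ℝ) ^ 2 * (√(x : ℝ) * (A * ((c : ℝ) ^ R0 * D)) ^ 2) := by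
    simp only [sum_add_distrib, sum_const, nsmul_eq_mul, Nat.card_Icc, Nat.add_sub_cancel]
    ring
  rw [e4]
  have h5 := Pool.Agent.R490.P3d.pairs (fun K => L * Vq (QH (DQ F) K) y * e) (fun K => by
    have := Vq_nonneg (QH (DQ F) K) y
    positivity) T
  have e5 : ∑ K ∈ powersetCard 2 (Icc 1 T), (L : ℝ) * Vq (QH (DQ F) K) y * e =
      L * e * ∑ H ∈ powersetCard 2 (Icc 1 T), Vq (QH (DQ F) H) y := by
    rw [mul_sum]
    apply sum_congr rfl
    intro K _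
    ring
  have h6 : ∑ h ∈ Icc 1 T, ∑ h' ∈ Icc 1 T, (if h = h' then 0 else L * Vq (QH (DQ F) {h, h'}) y * e) ≤
      2 * (L * e * ∑ H ∈ powersetCard 2 (Icc 1 T), Vq (QH (DQ F) H) y) := by
    rw [← e5]
    exact h5
  linarith

end Pool.Agent.L0h41.LW
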