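import Pool.Agent.L0h41.LW.B
import Pool.Agent.R490.P3h

set_option autoImplicit false

/-!
# The weights: densities, the detection of almost primes, and the exceptional integers
-/

namespace Pool.Agent.L0h41.LW

open Finset Filter
open Pool.Agent.W123.RP Pool.Agent.H373R2.T7 Pool.Agent.W123.RU Pool.Agent.TH464.PO
open Pool.Agent.Y879.AP
open Pool.Agent.R490.P3c (lam)
open Pool.Agent.R490.P3g (cheb WB_le_one)
open Pool.Agent.W23.DC Pool.Agent.Y882 Pool.Agent.Y882.KW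

open Classical in
/-- the sieving primes -/
noncomputable def PP (X y : ℕ) (u v : ℝ) : Finset ℕ := (pr X u v).filter (fun p => y < p)

/-- the densities -/
noncomputable def gg (F : ℕ → ℕ) (y p : ℕ) : ℝ := if y < p then gp F p else 0

lemma gg_nonneg (F : ℕ → ℕ) (y p : ℕ) : 0 ≤ gg F y p := by
  unfold gg
  split_ifs
  · exact gp_nonneg F p
  · exact le_rfl

lemma PP_mem {X y : ℕ} {u v : ℝ} {p : ℕ} (hp : p ∈ PP X y u v) : p.Prime ∧ y < p := by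
  unfold PP at hp
  rw [mem_filter, mem_pr] at hp
  exact ⟨hp.1.2.1, hp.2⟩

lemma VV_gg (F : ℕ → ℕ) (X y : ℕ) (u v : ℝ) (c : Finset ℕ → ℝ) :
    VV (pr X u v) c (gg F y) = ∑ U ∈ (PP X y u v).powerset, c U * wt F U := by
  classical
  unfold VV
  have hsub : (PP X y u v).powerset ⊆ (pr X u v).powerset := powerset_mono.2 (filter_subset _ _)
  rw [← sum_subset hsub]
  · apply sum_congr rfl
    intro U hU
    rw [mem_powerset] at hU
    congr 1
    rw [wt_eq]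
    apply prod_congr rfl
    intro p hp
    unfold gg
    rw [if_pos (PP_mem (hU hp)).2]
  · intro U hU hU'
    rw [mem_powerset] at hU hU'
    have : ∃ p ∈ U, p ∉ PP X y u v := by
      by_contra h
      push Not at h
      exact hU' (fun p hp => h p hp)
    obtain ⟨p, hp, hp'⟩ := this
    have h1 : gg F y p = 0 := by
      unfold gg
      rw [if_neg]
      intro h
      exact hp' (by unfold PP; exact mem_filter.2 ⟨hU hp, h⟩)
    rw [prod_eq_zero hp h1, mul_zero]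

open Classical in
lemma VV_ind (X y : ℕ) (u v : ℝ) (c : Finset ℕ → ℝ) (N : ℕ) (hN : ∀ p : ℕ, p.Prime → p ≤ y → ¬ p ∣ N) :
    VV (pr X u v) c (fun p => if p ∣ N then 1 else 0) = lam (PP X y u v) c N := by
  unfold VV lam
  have hsub : (PP X y u v).powerset ⊆ (pr X u v).powerset := powerset_mono.2 (filter_subset _ _)
  rw [← sum_subset hsub]
  · apply sum_congr rfl
    intro U hU
    rw [mem_powerset] at hU
    congr 1
    rw [Pool.Agent.Y882.prod_ind]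
    have h1 := (dvd_iff U (fun p hp => (PP_mem (hU hp)).1) N).symm
    by_cases h2 : ∀ p ∈ U, p ∣ N
    · rw [if_pos h2, if_pos (h1.1 h2)]
    · rw [if_neg h2, if_neg (fun h => h2 (h1.2 h))]
  · intro U hU hU'
    rw [mem_powerset] at hU hU'
    have : ∃ p ∈ U, p ∉ PP X y u v := by
      by_contra h
      push Not at h
      exact hU' (fun p hp => h p hp)
    obtain ⟨p, hp, hp'⟩ := this
    have hpp := (mem_pr.1 (hU hp)).2.1
    have h1 : ¬ p ∣ N := by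
      intro hd
      apply hp'
      unfold PP
      rw [mem_filter]
      refine ⟨hU hp, ?_⟩
      by_contra h
      exact hN p hpp (by omega) hd
    rw [prod_eq_zero hp (if_neg h1), mul_zero]

lemma Pi1_le (F : ℕ → ℕ) (P : Finset ℕ) : Pi1 F P ≤ Real.exp (∑ p ∈ P, gp F p) := by
  classical
  have h1 : Pi1 F P = ∏ p ∈ P, (1 + gp F p) := by
    rw [prod_one_add]
    rfl
  rw [h1, Real.exp_sum]
  apply Finset.prod_le_prod
  · intro p _
    have := gp_nonneg F p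
    linarith
  · intro p _
    linarith [Real.add_one_le_exp (gp F p)]

/-- Mertens' formula -/
theorem merg (F : ℕ → ℕ) (c : ℕ) (hF : PerB (DQ F) c)
    (hm : ∀ ε₁ υ η : ℝ, 0 < ε₁ → υ ≤ 1 → 0 < η → ∀ᶠ X : ℕ in atTop, Mer (pr X ε₁ υ) (tt X) (gp F) ε₁ υ η)
    (r : ℕ) (hr : 2 ≤ r) (υ η : ℝ) (hυ : υ ≤ 1) (hη : 0 < η) : ∀ᶠ X : ℕ in atTop,
    Mer (pr X (1 / (r : ℝ)) υ) (tt X) (gg F ⌊(X : ℝ) ^ (1 / (r : ℝ))⌋₊) (1 / (r : ℝ)) υ η := by
  classical
  have hrr : (2 : ℝ) ≤ r := by exact_mod_cast hr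
  obtain ⟨M, hM⟩ := exists_nat_ge (2 * c / η)
  filter_upwards [hm (1 / (r : ℝ)) υ (η / 2) (by positivity) hυ (by positivity), eventually_ge_atTop 2,
    Pool.Agent.R490.Mean.y_ge r hr (max M 4)] with X h1 h2 h3
  obtain ⟨y, hy⟩ : ∃ y, y = ⌊(X : ℝ) ^ (1 / (r : ℝ))⌋₊ := ⟨_, rfl⟩
  rw [← hy] at h3 ⊢
  have hy4 : 4 ≤ y := (le_max_right _ _).trans h3
  have hyM : M ≤ y := (le_max_left _ _).trans h3
  have hyr : (4 : ℝ) ≤ y := by exact_mod_cast hy4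
  intro a b ha hab hb
  have key := h1 a b ha hab hb
  obtain ⟨S, hS⟩ : ∃ S, S = (pr X (1 / (r : ℝ)) υ).filter (fun p => a ≤ tt X p ∧ tt X p < b) := ⟨_, rfl⟩
  rw [← hS] at key ⊢
  have hSp : ∀ p ∈ S, p.Prime ∧ y ≤ p := by
    intro p hp
    rw [hS, mem_filter, mem_pr] at hp
    refine ⟨hp.1.2.1, ?_⟩
    rw [hy]
    apply Pool.Agent.R490.P3f.y_real
    exact (le_tt_iff h2 hp.1.2.1.pos _).1 hp.1.2.2.1
  have hlow : ∑ p ∈ S, gg F y p ≤ ∑ p ∈ S, gp F p := by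
    apply sum_le_sum
    intro p _
    unfold gg
    split_ifs
    · exact le_rfl
    · exact gp_nonneg F p
  have hup : ∑ p ∈ S, gp F p ≤ ∑ p ∈ S, gg F y p + η / 2 := by
    have h5 : ∀ p ∈ S, gp F p ≤ gg F y p + (if p = y then (c : ℝ) / y else 0) := by
      intro p hp
      obtain ⟨g1, g2⟩ := hSp p hp
      rcases Nat.lt_or_eq_of_le g2 with h | h
      · rw [if_neg (by omega), add_zero]
        unfold gg
        rw [if_pos h]
      · rw [if_pos h.symm]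
        have g3 := gg_nonneg F y p
        have g4 : gp F p ≤ (c : ℝ) / y := by
          unfold gp
          rw [h]
          exact div_le_div_of_nonneg_right (by exact_mod_cast hF.few p g1) (by positivity)
        linarith
    refine (sum_le_sum h5).trans ?_
    rw [sum_add_distrib]
    apply add_le_add le_rfl
    rw [sum_ite_eq']
    have h6 : (c : ℝ) / y ≤ η / 2 := by
      have g2 : 2 * c / η ≤ y := hM.trans (by exact_mod_cast hyM)
      rw [div_le_iff₀ hη] at g2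
      rw [div_le_div_iff₀ (by linarith) (by norm_num)]
      linarith
    split_ifs
    · exact h6
    · positivity
  rw [abs_le] at key ⊢
  constructor <;> linarith

open Classical in
/-- a positive weight gives an almost prime -/
theorem detect (X : ℕ) (hX : 2 ≤ X) (r R : ℕ) (ζ υ lm S : ℝ) (hζυ : ζ ≤ υ) (hυ0 : 0 < υ)
    (hυ1 : υ ≤ 1) (hlam : 0 < lm) (hr : 1 / lm + S / υ ≤ R + 1) (c : Finset ℕ → ℝ) (N : ℕ) (hN0 : N ≠ 0)
    (hNS : (N : ℝ) ≤ (X : ℝ) ^ S)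
    (hc : VV (pr X (1 / (r : ℝ)) υ) c (fun p => if p ∣ N then 1 else 0) ≤
      WB X (1 / (r : ℝ)) ζ υ lm (lm / υ) N)
    (hN : ∀ p : ℕ, p.Prime → p ≤ ⌊(X : ℝ) ^ (1 / (r : ℝ))⌋₊ → ¬ p ∣ N)
    (hpos : 0 < lam (PP X ⌊(X : ℝ) ^ (1 / (r : ℝ))⌋₊ (1 / (r : ℝ)) υ) c N)
    (hsq : ∀ p ∈ pr X ζ υ, ¬ p ^ 2 ∣ N) :
    N.primeFactorsList.length ≤ R ∧ ∀ p : ℕ, p.Prime → p ∣ N → (X : ℝ) ^ ζ ≤ p := by
  rw [VV_ind X _ _ _ c N hN] at hc
  have hWB : 0 < WB X (1 / (r : ℝ)) ζ υ lm (lm / υ) N := hpos.trans_le hc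
  apply almost X hX ζ υ lm S R hζυ hυ0 hυ1 hlam hr N hN0 hNS _ hsq
  unfold WB at hWB
  unfold WW
  have h1 : ∀ p ∈ pr X (1 / (r : ℝ)) ζ, ¬ p ∣ N := by
    by_contra h
    rw [if_neg h, zero_mul] at hWB
    exact lt_irrefl _ hWB
  rw [if_pos h1, one_mul] at hWB
  have h2 : ∀ p ∈ PZ X ζ, ¬ p ∣ N := by
    intro p hp hd
    unfold PZ at hp
    rw [mem_filter, mem_Icc] at hp
    by_cases h3 : 1 / (r : ℝ) ≤ tt X p
    · exact h1 p (mem_pr.2 ⟨hp.1, hp.2.1, h3, hp.2.2⟩) hd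
    · push Not at h3
      have h4 := (Pool.Agent.Y882.tt_lt X p (1 / (r : ℝ)) hX hp.2.1.pos).1 h3
      exact hN p hp.2.1 (Nat.le_floor h4.le) hd
  rw [if_pos h2, one_mul]
  exact hWB

open Classical in
/-- the `h` such that `F (n + h)` is an almost prime -/
noncomputable def Good (F : ℕ → ℕ) (X R T n : ℕ) (ζ : ℝ) : Finset ℕ :=
  (Icc 1 T).filter (fun h =>
    (F (n + h)).primeFactorsList.length ≤ R ∧ ∀ p : ℕ, p.Prime → p ∣ F (n + h) → (X : ℝ) ^ ζ ≤ p)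

open Classical in
/-- the exceptional `n` -/
noncomputable def Bad (F : ℕ → ℕ) (X R T Z L : ℕ) (ζ t : ℝ) : Finset ℕ :=
  (Ioc Z (Z + L)).filter (fun n => ((Good F X R T n ζ).card : ℝ) < t)

open Classical in
/-- few `n` have a multiple of the square of a medium prime among the `F (n + h)` -/
theorem sq_count (F : ℕ → ℕ) (c K : ℕ)
    (hsq : ∀ p : ℕ, p.Prime → K < p → ∀ Z L : ℕ,
      (((Ioc Z (Z + L)).filter (fun n => p ^ 2 ∣ F n)).card : ℝ) ≤ c * ((L : ℝ) / (p : ℝ) ^ 2 + 1))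
    (X T Z L : ℕ) (ζ υ : ℝ) (hX : 2 ≤ X) (h4 : 4 ≤ (X : ℝ) ^ ζ) (hK : (K : ℝ) < (X : ℝ) ^ ζ)
    (hL : (X : ℝ) ^ (2 * υ) ≤ L) :
    (((Ioc Z (Z + L)).filter (fun n => ∃ h ∈ Icc 1 T, ∃ p ∈ pr X ζ υ, p ^ 2 ∣ F (n + h))).card : ℝ) ≤
      T * (4 * (c * L) / (X : ℝ) ^ ζ) := by
  have hX0 : (0 : ℝ) < X := by exact_mod_cast (by omega : 0 < X)
  have hL0 : (0 : ℝ) < L := lt_of_lt_of_le (by positivity) hL
  have h1 : (((Ioc Z (Z + L)).filter (fun n => ∃ h ∈ Icc 1 T, ∃ p ∈ pr X ζ υ, p ^ 2 ∣ F (n + h))).card : ℝ) ≤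
      ∑ h ∈ Icc 1 T, ∑ p ∈ pr X ζ υ, (((Ioc Z (Z + L)).filter (fun n => p ^ 2 ∣ F (n + h))).card : ℝ) := by
    have h2 : (Ioc Z (Z + L)).filter (fun n => ∃ h ∈ Icc 1 T, ∃ p ∈ pr X ζ υ, p ^ 2 ∣ F (n + h)) ⊆
        (Icc 1 T).biUnion (fun h => (pr X ζ υ).biUnion (fun p =>
          (Ioc Z (Z + L)).filter (fun n => p ^ 2 ∣ F (n + h)))) := by
      intro n hn
      rw [mem_filter] at hn
      obtain ⟨hn, h, hh, p, hp, hd⟩ := hn
      rw [mem_biUnion]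
      refine ⟨h, hh, ?_⟩
      rw [mem_biUnion]
      exact ⟨p, hp, mem_filter.2 ⟨hn, hd⟩⟩
    have h3 := (card_le_card h2).trans card_biUnion_le
    have h4 : ∑ h ∈ Icc 1 T, ((pr X ζ υ).biUnion (fun p =>
          (Ioc Z (Z + L)).filter (fun n => p ^ 2 ∣ F (n + h)))).card ≤
        ∑ h ∈ Icc 1 T, ∑ p ∈ pr X ζ υ, ((Ioc Z (Z + L)).filter (fun n => p ^ 2 ∣ F (n + h))).card :=
      sum_le_sum fun h _ => card_biUnion_le
    exact_mod_cast h3.trans h4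
  refine h1.trans ?_
  have h5 : ∀ h ∈ Icc 1 T, ∑ p ∈ pr X ζ υ, (((Ioc Z (Z + L)).filter (fun n => p ^ 2 ∣ F (n + h))).card : ℝ) ≤
      4 * (c * L) / (X : ℝ) ^ ζ := by
    intro h _
    have h6 : ∀ p ∈ pr X ζ υ, (((Ioc Z (Z + L)).filter (fun n => p ^ 2 ∣ F (n + h))).card : ℝ) ≤
        2 * (c * L) * ((p : ℝ) ^ 2)⁻¹ := by
      intro p hp
      have hpp := (mem_pr.1 hp).2.1
      have hp0 : (0 : ℝ) < p := by exact_mod_cast hpp.pos
      have hKp : K < p := by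
        have e6 := (le_tt_iff hX hpp.pos _).1 (mem_pr.1 hp).2.2.1
        exact_mod_cast hK.trans_le e6
      have e1 : ((Ioc Z (Z + L)).filter (fun n => p ^ 2 ∣ F (n + h))).card ≤
          ((Ioc (Z + h) (Z + h + L)).filter (fun n => p ^ 2 ∣ F n)).card := by
        apply card_le_card_of_injOn (fun n => n + h)
        · intro n hn
          rw [mem_coe, mem_filter, mem_Ioc] at hn
          rw [mem_coe, mem_filter, mem_Ioc]
          obtain ⟨⟨a1, a2⟩, a3⟩ := hn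
          refine ⟨?_, a3⟩
          show Z + h < n + h ∧ n + h ≤ Z + h + L
          constructor <;> omega
        · intro a _ b _ hab
          simp only at hab
          omega
      have e2 := hsq p hpp hKp (Z + h) L
      have e3 : (((Ioc Z (Z + L)).filter (fun n => p ^ 2 ∣ F (n + h))).card : ℝ) ≤
          ((Ioc (Z + h) (Z + h + L)).filter (fun n => p ^ 2 ∣ F n)).card := by exact_mod_cast e1
      have e4 : (p : ℝ) ^ 2 ≤ L := by
        refine le_trans ?_ hL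
        have e5 := (Pool.Agent.Y882.tt_lt X p υ hX hpp.pos).1 (mem_pr.1 hp).2.2.2
        calc (p : ℝ) ^ 2 ≤ ((X : ℝ) ^ υ) ^ 2 := pow_le_pow_left₀ hp0.le e5.le 2
          _ = (X : ℝ) ^ (2 * υ) := by
              rw [← Real.rpow_natCast, ← Real.rpow_mul hX0.le]
              congr 1
              push_cast
              ring
      have e5 : 1 ≤ (L : ℝ) / (p : ℝ) ^ 2 := by
        rw [le_div_iff₀ (by positivity), one_mul]
        exact e4
      calc _ ≤ _ := e3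
        _ ≤ c * ((L : ℝ) / (p : ℝ) ^ 2 + 1) := e2
        _ ≤ c * ((L : ℝ) / (p : ℝ) ^ 2 + (L : ℝ) / (p : ℝ) ^ 2) := by
            apply mul_le_mul_of_nonneg_left _ (Nat.cast_nonneg _)
            linarith
        _ = _ := by rw [div_eq_mul_inv]; ring
    refine (sum_le_sum h6).trans ?_
    rw [← mul_sum]
    obtain ⟨k, hk⟩ : ∃ k, k = ⌊(X : ℝ) ^ ζ⌋₊ := ⟨_, rfl⟩
    have hk1 : (X : ℝ) ^ ζ < k + 1 := by rw [hk]; exact Nat.lt_floor_add_one _
    have hk4 : 4 ≤ k := by rw [hk]; exact Nat.le_floor (by exact_mod_cast h4)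
    have h7 : ∑ p ∈ pr X ζ υ, ((p : ℝ) ^ 2)⁻¹ ≤ ∑ p ∈ Ioc (k - 1) (max (k - 1) X), ((p : ℝ) ^ 2)⁻¹ := by
      apply sum_le_sum_of_subset_of_nonneg
      · intro p hp
        have hp' := mem_pr.1 hp
        rw [mem_Ioc]
        refine ⟨?_, hp'.1.2.trans (le_max_right _ _)⟩
        have e6 := (le_tt_iff hX hp'.2.1.pos _).1 hp'.2.2.1
        have e7 := Nat.floor_le_floor e6
        rw [Nat.floor_natCast, ← hk] at e7
        omega
      · intro p _ _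
        positivity
    have h8 := sum_Ioc_inv_sq_le_sub (α := ℝ) (k := k - 1) (n := max (k - 1) X) (by omega) (le_max_left _ _)
    have h9 : (0 : ℝ) ≤ ((max (k - 1) X : ℕ) : ℝ)⁻¹ := by positivity
    have h10 : ((k - 1 : ℕ) : ℝ)⁻¹ ≤ 2 / (X : ℝ) ^ ζ := by
      have e8 : ((k - 1 : ℕ) : ℝ) = (k : ℝ) - 1 := by
        rw [Nat.cast_sub (by omega)]
        simp
      have e9 : (4 : ℝ) ≤ k := by exact_mod_cast hk4
      rw [e8, inv_eq_one_div, div_le_div_iff₀ (by linarith) (by linarith)]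
      linarith
    have h11 : ∑ p ∈ pr X ζ υ, ((p : ℝ) ^ 2)⁻¹ ≤ 2 / (X : ℝ) ^ ζ := by linarith
    calc 2 * ((c : ℝ) * L) * ∑ p ∈ pr X ζ υ, ((p : ℝ) ^ 2)⁻¹ ≤ 2 * (c * L) * (2 / (X : ℝ) ^ ζ) :=
          mul_le_mul_of_nonneg_left h11 (by positivity)
      _ = _ := by ring
  refine (sum_le_card_nsmul _ _ _ h5).trans ?_
  rw [nsmul_eq_mul, Nat.card_Icc, Nat.add_sub_cancel]

open Classical in
/-- the exceptional `n` are in one of three sets -/
theorem bad_sub (F : ℕ → ℕ) (hF0 : ∀ m, F m ≠ 0) (X : ℕ) (hX : 2 ≤ X) (r R y T Z L : ℕ)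
    (hy : y = ⌊(X : ℝ) ^ (1 / (r : ℝ))⌋₊)
    (ζ υ lm S : ℝ) (hζυ : ζ ≤ υ) (hυ0 : 0 < υ)
    (hυ1 : υ ≤ 1) (hlam : 0 < lm) (hr : 1 / lm + S / υ ≤ R + 1) (c : Finset ℕ → ℝ) (κ x t : ℝ) (hκ : 0 < κ)
    (ht : t ≤ κ * (x / 4))
    (hc : ∀ N : ℕ, VV (pr X (1 / (r : ℝ)) υ) c (fun p => if p ∣ N then 1 else 0) ≤
      WB X (1 / (r : ℝ)) ζ υ lm (lm / υ) N)
    (hS : ∀ m ∈ Ioc Z (Z + L + T), (F m : ℝ) ≤ (X : ℝ) ^ S) :
    Bad F X R T Z L ζ t ⊆
      (Ioc Z (Z + L)).filter (fun n => ∃ h ∈ Icc 1 T, ∃ p ∈ pr X ζ υ, p ^ 2 ∣ F (n + h)) ∪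
      ((Ioc Z (Z + L)).filter (fun n => (Wc (Sf (DQ F) y) n T : ℝ) ≤ x / 2) ∪
       (Ioc Z (Z + L)).filter (fun n => κ * (x / 4) ≤ |XX F (PP X y (1 / (r : ℝ)) υ)
         (fun U => c U - if U = ∅ then κ else 0) y T n|)) := by
  intro n hn
  unfold Bad at hn
  rw [mem_filter] at hn
  obtain ⟨hn1, hbad⟩ := hn
  rw [mem_union, mem_union]
  by_cases hsq : ∃ h ∈ Icc 1 T, ∃ p ∈ pr X ζ υ, p ^ 2 ∣ F (n + h)
  · left
    exact mem_filter.2 ⟨hn1, hsq⟩
  right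
  by_cases hW : (Wc (Sf (DQ F) y) n T : ℝ) ≤ x / 2
  · left
    exact mem_filter.2 ⟨hn1, hW⟩
  right
  rw [mem_filter]
  refine ⟨hn1, ?_⟩
  push Not at hW
  obtain ⟨P, hP⟩ : ∃ P, P = PP X y (1 / (r : ℝ)) υ := ⟨_, rfl⟩
  rw [← hP]
  have hlam : ∀ m, lam P (fun U => c U - if U = ∅ then κ else 0) m = lam P c m - κ := by
    intro m
    unfold lam
    have e1 : ∀ U ∈ P.powerset, (c U - if U = ∅ then κ else 0) * (if (∏ p ∈ U, p) ∣ m then (1 : ℝ) else 0) =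
        c U * (if (∏ p ∈ U, p) ∣ m then (1 : ℝ) else 0) - (if U = ∅ then κ else 0) := by
      intro U _
      by_cases h : U = ∅
      · subst h
        simp
      · rw [if_neg h, sub_zero, sub_zero]
    rw [sum_congr rfl e1, sum_sub_distrib, sum_ite_eq', if_pos (empty_mem_powerset P)]
  have hkey : ∀ h ∈ Icc 1 T, xx F P (fun U => c U - if U = ∅ then κ else 0) y h n ≤
      (if (F (n + h)).primeFactorsList.length ≤ R ∧
        ∀ p : ℕ, p.Prime → p ∣ F (n + h) → (X : ℝ) ^ ζ ≤ p then (1 : ℝ) else 0) +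
      -κ * rh F y (n + h) := by
    intro h hh
    unfold xx
    rw [hlam]
    by_cases hr1 : Sf (DQ F) y (n + h)
    · have e1 : rh F y (n + h) = 1 := by unfold rh; rw [if_pos hr1]
      rw [e1, one_mul, mul_one]
      have hNy : ∀ p : ℕ, p.Prime → p ≤ y → ¬ p ∣ F (n + h) := by
        intro p hp hpy hd
        exact hr1 p (mem_pz.2 ⟨hpy, hp⟩) hd
      have h3 : lam P c (F (n + h)) ≤ 1 := by
        have h4 := hc (F (n + h))
        rw [VV_ind X y _ _ c _ hNy, ← hP] at h4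
        refine h4.trans (WB_le_one X _ ζ υ lm (lm / υ) (by positivity) ?_ _)
        rw [div_mul_cancel₀ _ hυ0.ne']
      by_cases hpos : 0 < lam P c (F (n + h))
      · have hdet : (F (n + h)).primeFactorsList.length ≤ R ∧
            ∀ p : ℕ, p.Prime → p ∣ F (n + h) → (X : ℝ) ^ ζ ≤ p := by
          rw [mem_Ioc] at hn1
          rw [mem_Icc] at hh
          apply detect X hX r R ζ υ lm S hζυ hυ0 hυ1 ‹0 < lm› hr c (F (n + h)) (hF0 _)
          · exact hS (n + h) (by rw [mem_Ioc]; omega)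
          · exact hc _
          · rw [← hy]
            exact hNy
          · rw [← hy, ← hP]
            exact hpos
          · intro p hp hd
            exact hsq ⟨h, mem_Icc.2 hh, p, hp, hd⟩
        rw [if_pos hdet]
        linarith
      · push Not at hpos
        have h5 : (0 : ℝ) ≤ (if (F (n + h)).primeFactorsList.length ≤ R ∧
            ∀ p : ℕ, p.Prime → p ∣ F (n + h) → (X : ℝ) ^ ζ ≤ p then (1 : ℝ) else 0) := by
          split_ifs <;> norm_num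
        linarith
    · have e1 : rh F y (n + h) = 0 := by unfold rh; rw [if_neg hr1]
      rw [e1, zero_mul, mul_zero, add_zero]
      split_ifs <;> norm_num
  have h1 : XX F P (fun U => c U - if U = ∅ then κ else 0) y T n ≤
      ((Good F X R T n ζ).card : ℝ) + -κ * Wc (Sf (DQ F) y) n T := by
    unfold XX
    refine (sum_le_sum hkey).trans ?_
    rw [sum_add_distrib, ← mul_sum, W_rh]
    apply add_le_add _ le_rfl
    unfold Good
    rw [card_filter]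
    push_cast
    exact le_rfl
  have h2 : κ * (x / 2) ≤ κ * Wc (Sf (DQ F) y) n T := mul_le_mul_of_nonneg_left hW.le hκ.le
  rw [le_abs]
  right
  linarith

open Classical in
/-- the count of the exceptional integers -/
theorem count_bad (F : ℕ → ℕ) (hF0 : ∀ m, F m ≠ 0) (X : ℕ) (hX : 2 ≤ X) (r R y T Z L : ℕ)
    (hy : y = ⌊(X : ℝ) ^ (1 / (r : ℝ))⌋₊)
    (ζ υ lm S : ℝ) (hζυ : ζ ≤ υ) (hυ0 : 0 < υ)
    (hυ1 : υ ≤ 1) (hlam : 0 < lm) (hr : 1 / lm + S / υ ≤ R + 1) (c : Finset ℕ → ℝ) (κ x t : ℝ) (hκ : 0 < κ)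
    (hx : 0 < x) (ht : t ≤ κ * (x / 4))
    (hc : ∀ N : ℕ, VV (pr X (1 / (r : ℝ)) υ) c (fun p => if p ∣ N then 1 else 0) ≤
      WB X (1 / (r : ℝ)) ζ υ lm (lm / υ) N)
    (hS : ∀ m ∈ Ioc Z (Z + L + T), (F m : ℝ) ≤ (X : ℝ) ^ S) (s1 v2 v3 : ℝ)
    (h1 : (((Ioc Z (Z + L)).filter (fun n => ∃ h ∈ Icc 1 T, ∃ p ∈ pr X ζ υ, p ^ 2 ∣ F (n + h))).card : ℝ) ≤ s1)
    (h2 : ∑ n ∈ Ioc Z (Z + L), ((Wc (Sf (DQ F) y) n T : ℝ) - x) ^ 2 ≤ v2)
    (h3 : ∑ n ∈ Ioc Z (Z + L), XX F (PP X y (1 / (r : ℝ)) υ) (fun U => c U - if U = ∅ then κ else 0) y T n ^ 2 ≤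
      v3) :
    ((Bad F X R T Z L ζ t).card : ℝ) ≤ s1 + (v2 / (x / 2) ^ 2 + v3 / (κ * (x / 4)) ^ 2) := by
  have hsub := bad_sub F hF0 X hX r R y T Z L hy ζ υ lm S hζυ hυ0 hυ1 hlam hr c κ x t hκ ht hc hS
  obtain ⟨a, ha⟩ : ∃ a : Finset ℕ → ℝ, a = fun U => c U - if U = ∅ then κ else 0 := ⟨_, rfl⟩
  obtain ⟨P, hP⟩ : ∃ P, P = PP X y (1 / (r : ℝ)) υ := ⟨_, rfl⟩
  rw [← hP, ← ha] at hsub h3
  have hcard : ((Bad F X R T Z L ζ t).card : ℝ) ≤
      (((Ioc Z (Z + L)).filter (fun n => ∃ h ∈ Icc 1 T, ∃ p ∈ pr X ζ υ, p ^ 2 ∣ F (n + h))).card : ℝ) +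
      ((((Ioc Z (Z + L)).filter (fun n => (Wc (Sf (DQ F) y) n T : ℝ) ≤ x / 2)).card : ℝ) +
       (((Ioc Z (Z + L)).filter (fun n => κ * (x / 4) ≤ |XX F P a y T n|)).card : ℝ)) := by
    have a1 := (card_le_card hsub).trans ((card_union_le _ _).trans (Nat.add_le_add_left (card_union_le _ _) _))
    exact_mod_cast a1
  refine hcard.trans ?_
  apply add_le_add h1
  apply add_le_add
  · have a1 := cheb (Ioc Z (Z + L)) (fun n => (Wc (Sf (DQ F) y) n T : ℝ) - x) ((x / 2) ^ 2) (by positivity)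
      (fun n => (Wc (Sf (DQ F) y) n T : ℝ) ≤ x / 2) (by
        intro n _ hn
        show (x / 2) ^ 2 ≤ ((Wc (Sf (DQ F) y) n T : ℝ) - x) ^ 2
        have : x / 2 ≤ x - (Wc (Sf (DQ F) y) n T : ℝ) := by linarith
        calc (x / 2) ^ 2 ≤ (x - (Wc (Sf (DQ F) y) n T : ℝ)) ^ 2 := pow_le_pow_left₀ (by positivity) this 2
          _ = _ := by ring)
    refine a1.trans ?_
    exact div_le_div_of_nonneg_right h2 (by positivity)
  · have a1 := cheb (Ioc Z (Z + L)) (fun n => XX F P a y T n) ((κ * (x / 4)) ^ 2) (by positivity)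
      (fun n => κ * (x / 4) ≤ |XX F P a y T n|) (by
        intro n _ hn
        show (κ * (x / 4)) ^ 2 ≤ XX F P a y T n ^ 2
        rw [← sq_abs (XX F P a y T n)]
        exact pow_le_pow_left₀ (by positivity) hn 2)
    refine a1.trans ?_
    exact div_le_div_of_nonneg_right h3 (by positivity)

/-- the sum over the sieving primes -/
lemma sumP (F : ℕ → ℕ) (X y r : ℕ) (hr : 2 ≤ r) (υ : ℝ) (hυ1 : υ ≤ 1) (hrυ : 1 / (r : ℝ) ≤ υ)
    (hM : Mer (pr X (1 / (r : ℝ)) υ) (tt X) (gg F y) (1 / (r : ℝ)) υ 1) :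
    ∑ p ∈ PP X y (1 / (r : ℝ)) υ, gp F p ≤ r ∧ Pi1 F (PP X y (1 / (r : ℝ)) υ) ≤ 3 * r := by
  classical
  have hr0 : (0 : ℝ) < r := by exact_mod_cast (by omega : 0 < r)
  have h1 := hM (1 / (r : ℝ)) υ le_rfl hrυ le_rfl
  have e1 : (pr X (1 / (r : ℝ)) υ).filter (fun p => 1 / (r : ℝ) ≤ tt X p ∧ tt X p < υ) =
      pr X (1 / (r : ℝ)) υ := pr_sub X _ _ _ _ le_rfl le_rfl
  rw [e1] at h1
  have e2 : ∑ p ∈ pr X (1 / (r : ℝ)) υ, gg F y p = ∑ p ∈ PP X y (1 / (r : ℝ)) υ, gp F p := by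
    unfold PP
    rw [sum_filter]
    rfl
  rw [e2, abs_le] at h1
  have h2 : Real.log (υ / (1 / (r : ℝ))) ≤ Real.log r := by
    apply Real.log_le_log
    · have : 0 < υ := lt_of_lt_of_le (by positivity) hrυ
      positivity
    · rw [div_div_eq_mul_div, div_one]
      exact mul_le_of_le_one_left hr0.le hυ1
  have h3 : Real.log r ≤ r - 1 := Real.log_le_sub_one_of_pos hr0
  refine ⟨by linarith [h1.2], ?_⟩
  refine (Pi1_le F _).trans ?_
  calc Real.exp (∑ p ∈ PP X y (1 / (r : ℝ)) υ, gp F p) ≤ Real.exp (1 + Real.log r) :=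
        Real.exp_le_exp.2 (by linarith [h1.2])
    _ = Real.exp 1 * r := by rw [Real.exp_add, Real.exp_log hr0]
    _ ≤ 3 * r := by
        apply mul_le_mul_of_nonneg_right _ hr0.le
        linarith [Real.exp_one_lt_d9]

open Classical in
/-- the weights -/
theorem weights (F : ℕ → ℕ) (X r y : ℕ) (hX : 2 ≤ X) (hr2 : 2 ≤ r) (τ υ lm f0 c1 : ℝ) (hτ0 : 0 < τ) (hυ1 : υ ≤ 1)
    (hrυ : 1 / (r : ℝ) ≤ υ) (hc1 : c1 = 1 + lm) (hlm : 0 < lm)
    (hMer1 : Mer (pr X (1 / (r : ℝ)) υ) (tt X) (gg F y) (1 / (r : ℝ)) υ 1)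
    (cL : Finset ℕ → ℝ) (hb1 : ∀ U, |cL U| ≤ 1 + lm)
    (hb2 : ∀ U ⊆ pr X (1 / (r : ℝ)) υ, cL U ≠ 0 → ((∏ p ∈ U, p : ℕ) : ℝ) ≤ (X : ℝ) ^ τ)
    (hb4 : 1 / (r : ℝ) * f0 ≤ VV (pr X (1 / (r : ℝ)) υ) cL (gg F y)) :
    ∃ κ : ℝ, f0 / r ≤ κ ∧
      (∀ U, |cL U - (if U = ∅ then κ else 0)| ≤ c1 * (1 + 3 * r)) ∧
      (∀ U ⊆ PP X y (1 / (r : ℝ)) υ, cL U - (if U = ∅ then κ else 0) ≠ 0 →
        ∏ p ∈ U, p ≤ ⌊(X : ℝ) ^ τ⌋₊) ∧
      ∑ U ∈ (PP X y (1 / (r : ℝ)) υ).powerset, (cL U - (if U = ∅ then κ else 0)) * wt F U = 0 := by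
  have hX1 : (1 : ℝ) ≤ X := by exact_mod_cast (by omega : 1 ≤ X)
  have hr0 : (0 : ℝ) < r := by exact_mod_cast (by omega : 0 < r)
  have hc10 : 1 ≤ c1 := by rw [hc1]; linarith
  obtain ⟨κ, hκ⟩ : ∃ κ, κ = VV (pr X (1 / (r : ℝ)) υ) cL (gg F y) := ⟨_, rfl⟩
  obtain ⟨P, hP⟩ : ∃ P, P = PP X y (1 / (r : ℝ)) υ := ⟨_, rfl⟩
  obtain ⟨hs1, hPi⟩ := sumP F X y r hr2 υ hυ1 hrυ hMer1
  rw [← hP] at hs1 hPi
  have hκsum : κ = ∑ U ∈ P.powerset, cL U * wt F U := by rw [hκ, VV_gg, ← hP]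
  have hκup : |κ| ≤ c1 * (3 * r) := by
    rw [hκsum]
    refine (abs_sum_le_sum_abs _ _).trans ?_
    calc ∑ U ∈ P.powerset, |cL U * wt F U| ≤ ∑ U ∈ P.powerset, c1 * wt F U := by
          apply sum_le_sum
          intro U _
          have a1 := wt_nonneg F U
          rw [abs_mul, abs_of_nonneg a1]
          apply mul_le_mul_of_nonneg_right _ a1
          rw [hc1]
          exact hb1 U
      _ = c1 * Pi1 F P := by rw [← mul_sum]; rfl
      _ ≤ c1 * (3 * r) := mul_le_mul_of_nonneg_left hPi (by linarith)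
  refine ⟨κ, ?_, ?_, ?_, ?_⟩
  · rw [← hκ] at hb4
    calc f0 / r = 1 / (r : ℝ) * f0 := by ring
      _ ≤ κ := hb4
  · intro U
    have a1 : |cL U| ≤ c1 := by rw [hc1]; exact hb1 U
    have a2 : |if U = ∅ then κ else 0| ≤ c1 * (3 * r) := by
      split_ifs
      · exact hκup
      · rw [abs_zero]; positivity
    calc |cL U - if U = ∅ then κ else 0| ≤ |cL U| + |if U = ∅ then κ else 0| := abs_sub _ _
      _ ≤ c1 + c1 * (3 * r) := add_le_add a1 a2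
      _ = c1 * (1 + 3 * r) := by ring
  · intro U hU hne
    apply Nat.le_floor
    by_cases hU0 : U = ∅
    · subst hU0
      rw [prod_empty, Nat.cast_one]
      exact Real.one_le_rpow hX1 hτ0.le
    · apply hb2 U
      · intro p hp
        have := hU hp
        exact (mem_filter.1 this).1
      · intro h0
        apply hne
        rw [if_neg hU0, h0, sub_zero]
  · rw [← hP]
    have a1 : ∀ U ∈ P.powerset, (cL U - (if U = ∅ then κ else 0)) * wt F U =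
        cL U * wt F U - (if U = ∅ then κ else 0) := by
      intro U _
      by_cases h : U = ∅
      · subst h
        simp [wt]
      · simp [h]
    rw [sum_congr rfl a1, sum_sub_distrib, ← hκsum, sum_ite_eq', if_pos (empty_mem_powerset P), sub_self]

end Pool.Agent.L0h41.LW
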