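import Pool.Agent.L0h41.LW.C
import Pool.Agent.R490.P3l
import Pool.Agent.TH464.PO.Mom2

set_option autoImplicit false

/-!
# Almost primes in almost all windows: the main theorem
-/

namespace Pool.Agent.L0h41.LW

open Finset Filter
open Pool.Agent.W123.RP Pool.Agent.H373R2.T7 Pool.Agent.W123.RU Pool.Agent.TH464.PO Pool.Agent.TH464.PW
open Pool.Agent.Y879.AP
open Pool.Agent.R490.P3c (lam)
open Pool.Agent.R490.P3h (sqrt_xx fin_alg)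
open Pool.Agent.R490.P3i (est_abs est_r1 est_r2)
open Pool.Agent.R490.P3l (exists_cst)
open Pool.Agent.R490.Mean (y_ge pow_le)
open Pool.Agent.W23.DC Pool.Agent.Y882 Pool.Agent.Y882.KW

open Classical in
/-- the arithmetic data of a sequence -/
structure Dat (F : ℕ → ℕ) (c g K : ℕ) : Prop where
  hc : 1 ≤ c
  hg : 1 ≤ g
  per : PerB (DQ F) c
  adm : ∀ p : ℕ, p.Prime → nuB (DQ F) p < p
  ne0 : ∀ m, F m ≠ 0
  size : ∀ m, F m ≤ K * (m + 1) ^ g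
  col : ∀ T n h h' : ℕ, h ≠ h' → h ≤ T → h' ≤ T → ∀ p : ℕ, p.Prime → K * (T + 1) ^ K < p →
    p ∣ F (n + h) → p ∣ F (n + h') → False
  large : ∀ η : ℝ, 0 < η → ∃ T1 : ℕ, ∀ T : ℕ, T1 ≤ T → ∀ y : ℕ, ∀ t ∈ Icc 1 T,
    ((((pz y).filter (fun p : ℕ => T < p ∧ CoG (DQ F) p t)).card : ℕ) : ℝ) ≤ η * T
  V : ∃ v Cv : ℝ, 0 < v ∧ 0 < Cv ∧ ∀ y : ℕ, 3 ≤ y →
    v / Real.log y ≤ Vq (DQ F) y ∧ Vq (DQ F) y ≤ Cv / Real.log y
  mer : ∀ ε₁ υ η : ℝ, 0 < ε₁ → υ ≤ 1 → 0 < η → ∀ᶠ X : ℕ in atTop, Mer (pr X ε₁ υ) (tt X) (gp F) ε₁ υ η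
  sq : ∀ p : ℕ, p.Prime → K < p → ∀ Z L : ℕ,
      (((Ioc Z (Z + L)).filter (fun n => p ^ 2 ∣ F n)).card : ℝ) ≤ c * ((L : ℝ) / (p : ℝ) ^ 2 + 1)

/-- the constants -/
structure Cst (g : ℕ) (θ τ ζ υ lm ε f0 c1 A κ0 x1 η γ : ℝ) (C0 G0 m r R0 : ℕ) : Prop where
  Fc1 : c1 = 1 + lm
  FA : A = c1 * (1 + 3 * r)
  Fκ0 : κ0 = f0 / r
  FR0 : R0 = 2 * (g + 1) * r
  Fx1 : x1 = 960 * (A * 2 ^ R0) ^ 2 / (κ0 ^ 2 * ε) + 160 / ε + 4
  Fη : η = ε / 560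
  Fγ : γ = θ - 2 * τ
  Fr : r = G0 * m
  Ff0 : 0 < f0
  Fε : 0 < ε
  Fε1 : ε ≤ 1
  Flm : 0 < lm
  Fζ : 0 < ζ
  h2 : 2 * ζ < τ
  hζυ : ζ ≤ υ
  hυτ : υ < τ
  hτθ : 2 * τ < θ
  hθ1 : θ ≤ 1
  FG1 : 1 ≤ G0
  FG2 : 16 * C0 / γ ≤ G0
  Fm1 : 1 ≤ m
  Fr2 : 2 ≤ r
  Fm : 4608 * c1 ^ 2 * (G0 : ℝ) ^ 6 / f0 ^ 2 * ((m : ℝ) ^ 6 * (1 / 2) ^ m) ≤ ε / 20
  Frζ : 1 / (r : ℝ) ≤ ζ

lemma Cst.pos {g : ℕ} {θ τ ζ υ lm ε f0 c1 A κ0 x1 η γ : ℝ} {C0 G0 m r R0 : ℕ}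
    (h : Cst g θ τ ζ υ lm ε f0 c1 A κ0 x1 η γ C0 G0 m r R0) :
    0 < A ∧ 0 < κ0 ∧ 4 ≤ x1 ∧ 0 < (r : ℝ) ∧ 1 ≤ c1 ∧ 0 < γ ∧ 960 * (A * 2 ^ R0) ^ 2 / (κ0 ^ 2 * ε) ≤ x1 ∧
      160 / ε ≤ x1 := by
  have h1 := h.Flm
  have h2 := h.Ff0
  have h3 := h.Fε
  have hr0 : (0 : ℝ) < r := by
    have := h.Fr2
    exact_mod_cast (by omega : 0 < r)
  have hc1 : 1 ≤ c1 := by rw [h.Fc1]; linarith
  have hA : 0 < A := by rw [h.FA]; positivity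
  have hκ : 0 < κ0 := by rw [h.Fκ0]; positivity
  have e1 : 0 ≤ 960 * (A * 2 ^ R0) ^ 2 / (κ0 ^ 2 * ε) := by positivity
  have e2 : 0 ≤ 160 / ε := by positivity
  have e3 := h.Fx1
  refine ⟨hA, hκ, by linarith, hr0, hc1, ?_, by linarith, by linarith⟩
  rw [h.Fγ]
  linarith [h.hτθ]

open Classical in
/-- one scale -/
theorem oneX {g : ℕ} {θ τ ζ υ lm ε f0 c1 A κ0 x1 η γ : ℝ} {C0 G0 m r R0 : ℕ}
    (h : Cst g θ τ ζ υ lm ε f0 c1 A κ0 x1 η γ C0 G0 m r R0) (F : ℕ → ℕ) (c K : ℕ) (D : Dat F c g K)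
    (S : ℝ) (R : ℕ)
    (hr : 1 / lm + S / υ ≤ R + 1)
    (X2 v : ℝ) (hX2 : x1 ≤ X2) (hv0 : 0 < v) (hv1 : v ≤ Real.log 3)
    (X y T Z L : ℕ) (hX : 2 ≤ X) (hy : y = ⌊(X : ℝ) ^ (1 / (r : ℝ))⌋₊) (hy1 : 1 ≤ y)
    (hXL : (X : ℝ) ^ θ ≤ L)
    (hMer1 : Mer (pr X (1 / (r : ℝ)) υ) (tt X) (gg F y) (1 / (r : ℝ)) υ 1)
    (cL : Finset ℕ → ℝ) (hb1 : ∀ U, |cL U| ≤ 1 + lm)
    (hb2 : ∀ U ⊆ pr X (1 / (r : ℝ)) υ, cL U ≠ 0 → ((∏ p ∈ U, p : ℕ) : ℝ) ≤ (X : ℝ) ^ τ)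
    (hb3 : ∀ N : ℕ, VV (pr X (1 / (r : ℝ)) υ) cL (fun p => if p ∣ N then 1 else 0) ≤
      WB X (1 / (r : ℝ)) ζ υ lm (lm / υ) N)
    (hb4 : 1 / (r : ℝ) * f0 ≤ VV (pr X (1 / (r : ℝ)) υ) cL (gg F y))
    (hNS : ∀ m ∈ Ioc Z (Z + L + T), (F m : ℝ) ≤ (X : ℝ) ^ S)
    (x : ℝ) (hx1 : x1 ≤ x) (hlq : 2 ≤ Real.log X) (hTlog : (T : ℝ) ≤ X2 / v * Real.log X)
    (hvar1 : ∑ n ∈ Ioc Z (Z + L), ((Wc (Sf (DQ F) y) n T : ℝ) - x) ^ 2 ≤ L * (7 * η * x ^ 2 + 2 * x))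
    (hvar2 : ∑ n ∈ Ioc Z (Z + L), (Wc (Sf (DQ F) y) n T : ℝ) ≤ 3 * (L * x))
    (hsing : ∑ H ∈ powersetCard 2 (Icc 1 T), Vq (QH (DQ F) H) y ≤ x ^ 2)
    (Hsec : ∀ (P : Finset ℕ) (a : Finset ℕ → ℝ) (A : ℝ),
      (∀ p ∈ P, p.Prime ∧ y < p) → (∀ U, |a U| ≤ A) →
      (∀ U ⊆ P, a U ≠ 0 → ∏ p ∈ U, p ≤ ⌊(X : ℝ) ^ τ⌋₊) → ∑ U ∈ P.powerset, a U * wt F U = 0 →
      ∑ n ∈ Ioc Z (Z + L), XX F P a y T n ^ 2 ≤
        (A * 2 ^ R0) ^ 2 * ∑ n ∈ Ioc Z (Z + L), (Wc (Sf (DQ F) y) n T : ℝ) +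
        2 * (L * (A ^ 2 * (Pi1 F P ^ 2 * (c * (∑ p ∈ P, gp F p) / y)) +
          (1 / 2) ^ m * (A * Pi1 F P) ^ 2) *
          ∑ H ∈ powersetCard 2 (Icc 1 T), Vq (QH (DQ F) H) y) +
        (T : ℝ) ^ 2 * (√((y ^ (16 * (C0 * m)) : ℕ) : ℝ) *
          (A * ((c : ℝ) ^ R0 * (⌊(X : ℝ) ^ τ⌋₊ : ℕ))) ^ 2))
    (Yb : ℝ) (hYb : 640 * A ^ 2 * (9 * (r : ℝ) ^ 3) / (κ0 ^ 2 * ε) ≤ Yb) (hYy : Yb * c ≤ y)
    (hE10 : 16 * (X2 / v) ^ 2 * (A * (c : ℝ) ^ R0) ^ 2 / (κ0 ^ 2 * x1 ^ 2) * (20 / (ε * v)) *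
      Real.log X ^ 3 ≤ (X : ℝ) ^ (γ / 2))
    (hE11 : (X2 / v) * (4 * c) * (20 / ε) * Real.log X ^ 1 ≤ (X : ℝ) ^ ζ)
    (h4ζ : 4 ≤ (X : ℝ) ^ ζ) (hKζ : (K : ℝ) < (X : ℝ) ^ ζ) :
    ((Bad F X R T Z L ζ (κ0 * (x / 4))).card : ℝ) ≤ ε * L := by
  obtain ⟨hA0, hκ00, hx11, hr0, hc10, hγ0, hx1a, hx1b⟩ := h.pos
  have hε := h.Fε
  have hX1 : (1 : ℝ) ≤ X := by exact_mod_cast (by omega : 1 ≤ X)
  have hX0 : (0 : ℝ) < X := by linarith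
  have hx0 : 0 < x := by linarith
  have hL0 : (0 : ℝ) < L := lt_of_lt_of_le (by positivity) hXL
  have hτ0 : 0 < τ := by linarith [h.h2, h.Fζ]
  have hυ0 : 0 < υ := by linarith [h.hζυ, h.Fζ]
  have hυ1 : υ ≤ 1 := by linarith [h.hυτ, h.hτθ, h.hθ1]
  have hrυ : 1 / (r : ℝ) ≤ υ := h.Frζ.trans h.hζυ
  have hlq0 : 0 < Real.log X := by linarith
  have hlog3 : Real.log 3 ≤ 2 := by
    have := Real.log_le_sub_one_of_pos (show (0 : ℝ) < 3 by norm_num)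
    linarith
  have hX20 : 0 < X2 := by linarith
  obtain ⟨κ, hκlow, haA, haD, hasum⟩ := weights F X r y hX h.Fr2 τ υ lm f0 c1 hτ0 hυ1 hrυ h.Fc1 h.Flm hMer1 cL
    hb1 hb2 hb4
  rw [← h.Fκ0] at hκlow
  rw [← h.FA] at haA
  have hκp : 0 < κ := by linarith
  obtain ⟨hs1, hPi⟩ := sumP F X y r h.Fr2 υ hυ1 hrυ hMer1
  obtain ⟨a, ha⟩ : ∃ a : Finset ℕ → ℝ, a = fun U => cL U - if U = ∅ then κ else 0 := ⟨_, rfl⟩
  have haA' : ∀ U, |a U| ≤ A := by rw [ha]; exact haA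
  obtain ⟨P, hP⟩ : ∃ P, P = PP X y (1 / (r : ℝ)) υ := ⟨_, rfl⟩
  rw [← hP] at hs1 hPi haD hasum
  have haD' : ∀ U ⊆ P, a U ≠ 0 → ∏ p ∈ U, p ≤ ⌊(X : ℝ) ^ τ⌋₊ := by rw [ha]; exact haD
  have hasum' : ∑ U ∈ P.powerset, a U * wt F U = 0 := by rw [ha]; exact hasum
  have hPp : ∀ p ∈ P, p.Prime ∧ y < p := by
    intro p hp
    rw [hP] at hp
    exact PP_mem hp
  have hsec := Hsec P a A hPp haA' haD' hasum'
  obtain ⟨e, he⟩ : ∃ e : ℝ, e = A ^ 2 * (Pi1 F P ^ 2 * (c * (∑ p ∈ P, gp F p) / y)) +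
          (1 / 2) ^ m * (A * Pi1 F P) ^ 2 := ⟨_, rfl⟩
  have hsum0 : 0 ≤ ∑ p ∈ P, gp F p := sum_nonneg fun p _ => gp_nonneg F p
  have hPi0 : 0 ≤ Pi1 F P := Pi1_nonneg F P
  have hyr0 : (0 : ℝ) < y := by exact_mod_cast hy1
  have hc0 : (0 : ℝ) < c := by exact_mod_cast D.hc
  have he0 : 0 ≤ e := by rw [he]; positivity
  obtain ⟨err, herr⟩ : ∃ err : ℝ, err = (T : ℝ) ^ 2 * (√((y ^ (16 * (C0 * m)) : ℕ) : ℝ) *
          (A * ((c : ℝ) ^ R0 * (⌊(X : ℝ) ^ τ⌋₊ : ℕ))) ^ 2) := ⟨_, rfl⟩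
  have herr0 : 0 ≤ err := by rw [herr]; positivity
  rw [← he, ← herr] at hsec
  obtain ⟨v3, hv3⟩ : ∃ v3 : ℝ, v3 = (A * 2 ^ R0) ^ 2 * (3 * (L * x)) + 2 * (L * e * x ^ 2) + err := ⟨_, rfl⟩
  have hsec3 : ∑ n ∈ Ioc Z (Z + L), XX F P a y T n ^ 2 ≤ v3 := by
    refine hsec.trans ?_
    rw [hv3]
    apply add_le_add _ le_rfl
    apply add_le_add
    · exact mul_le_mul_of_nonneg_left hvar2 (sq_nonneg _)
    · apply mul_le_mul_of_nonneg_left _ (by norm_num)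
      exact mul_le_mul_of_nonneg_left hsing (by positivity)
  have hLυ : (X : ℝ) ^ (2 * υ) ≤ L := by
    refine le_trans ?_ hXL
    exact Real.rpow_le_rpow_of_exponent_le hX1 (by linarith [h.hυτ, h.hτθ])
  have hsq := sq_count F c K D.sq X T Z L ζ υ hX h4ζ hKζ hLυ
  have hcount := count_bad F D.ne0 X hX r R y T Z L hy ζ υ lm S h.hζυ hυ0 hυ1 h.Flm hr cL κ x
    (κ0 * (x / 4)) hκp hx0 (mul_le_mul_of_nonneg_right hκlow (by positivity)) hb3 hNS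
    _ _ v3 hsq hvar1 (by rw [← hP, ← ha]; exact hsec3)
  refine hcount.trans ?_
  have f1 : (T : ℝ) * (4 * (c * L) / (X : ℝ) ^ ζ) ≤ ε / 20 * L := by
    have hXζ : 0 < (X : ℝ) ^ ζ := by positivity
    rw [mul_div_assoc', div_le_iff₀ hXζ]
    have a1 : (T : ℝ) * (4 * c) ≤ ε / 20 * (X : ℝ) ^ ζ := by
      calc (T : ℝ) * (4 * c) ≤ (X2 / v * Real.log X) * (4 * c) :=
            mul_le_mul_of_nonneg_right hTlog (by positivity)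
        _ = ε / 20 * ((X2 / v) * (4 * c) * (20 / ε) * Real.log X ^ 1) := by field_simp
        _ ≤ ε / 20 * (X : ℝ) ^ ζ := mul_le_mul_of_nonneg_left hE11 (by positivity)
    calc (T : ℝ) * (4 * (c * L)) = (T : ℝ) * (4 * c) * L := by ring
      _ ≤ ε / 20 * (X : ℝ) ^ ζ * L := mul_le_mul_of_nonneg_right a1 hL0.le
      _ = _ := by ring
  have hsqrt := sqrt_xx X r C0 m G0 γ (by omega) hγ0 h.Fr h.Fm1 h.FG1 h.FG2
  rw [← hy] at hsqrt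
  have hDq : ((⌊(X : ℝ) ^ τ⌋₊ : ℕ) : ℝ) ^ 2 ≤ (X : ℝ) ^ (2 * τ) := by
    calc ((⌊(X : ℝ) ^ τ⌋₊ : ℕ) : ℝ) ^ 2 ≤ ((X : ℝ) ^ τ) ^ 2 :=
          pow_le_pow_left₀ (Nat.cast_nonneg _) (Nat.floor_le (by positivity)) 2
      _ = (X : ℝ) ^ (2 * τ) := by
          rw [← Real.rpow_natCast, ← Real.rpow_mul hX0.le]
          congr 1
          push_cast
          ring
  have hqq : (X : ℝ) ^ (γ / 2) * (X : ℝ) ^ (2 * τ) * (X : ℝ) ^ (γ / 2) ≤ L := by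
    refine le_trans (le_of_eq ?_) hXL
    rw [← Real.rpow_add hX0, ← Real.rpow_add hX0]
    congr 1
    rw [h.Fγ]
    ring
  have hBlow : (L : ℝ) * (v / Real.log X) ≤ L := by
    have : v / Real.log X ≤ 1 := by
      rw [div_le_one hlq0]
      linarith
    calc (L : ℝ) * (v / Real.log X) ≤ L * 1 := mul_le_mul_of_nonneg_left this hL0.le
      _ = L := mul_one _
  have f2 := est_abs T v x1 X2 x L (Real.log X) L ((X : ℝ) ^ (γ / 2)) ((X : ℝ) ^ (2 * τ))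
    (√((y ^ (16 * (C0 * m)) : ℕ) : ℝ)) (⌊(X : ℝ) ^ τ⌋₊ : ℝ) (A * (c : ℝ) ^ R0) κ0 ε _ hv0 (by linarith) hX2 hx1
    hε hκ00 (by linarith) (Nat.cast_nonneg _)
    hTlog (by positivity) hsqrt (Real.sqrt_nonneg _) (Nat.cast_nonneg _) hDq hqq hBlow rfl hE10
  have herr2 : err = (T : ℝ) ^ 2 * (√((y ^ (16 * (C0 * m)) : ℕ) : ℝ) *
      (A * (c : ℝ) ^ R0 * (⌊(X : ℝ) ^ τ⌋₊ : ℝ)) ^ 2) := by
    rw [herr]
    ring
  rw [← herr2] at f2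
  have f3 := est_r1 A (Pi1 F P) (∑ p ∈ P, gp F p) (y / c) r κ0 ε Yb hPi0 hPi hsum0 hs1 (by positivity) hr0
    hκ00 hε hYb (by rw [le_div_iff₀ hc0]; exact hYy)
  have f4 := est_r2 c1 A (Pi1 F P) r κ0 f0 G0 ε m hc10 h.FA hPi0 hPi (by exact_mod_cast h.Fr2) h.Ff0 h.Fκ0
    (by rw [h.Fr]; push_cast; ring) h.Fm
  have f5 : 32 * e / κ0 ^ 2 ≤ ε / 10 := by
    have b3 : 32 * e / κ0 ^ 2 = 32 * (A ^ 2 * (Pi1 F P ^ 2 * ((∑ p ∈ P, gp F p) / (y / c)))) / κ0 ^ 2 +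
        32 * ((1 / 2) ^ m * (A * Pi1 F P) ^ 2) / κ0 ^ 2 := by
      rw [he, div_div_eq_mul_div, mul_comm (c : ℝ)]
      ring
    rw [b3]
    linarith
  have f6 : 28 * η ≤ ε / 20 := by rw [h.Fη]; linarith
  have f7 : 8 / x ≤ ε / 20 := by
    rw [div_le_iff₀ hx0]
    have a1 := hx1b.trans hx1
    rw [div_le_iff₀ hε] at a1
    linarith
  have f8 : 48 * (A * 2 ^ R0) ^ 2 / (κ0 ^ 2 * x) ≤ ε / 20 := by
    rw [div_le_iff₀ (by positivity)]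
    have a1 := hx1a.trans hx1
    rw [div_le_iff₀ (by positivity)] at a1
    linarith
  exact fin_alg _ _ _ L x κ κ0 ((A * 2 ^ R0) ^ 2) e err ε η L hL0.le hx0 hκ00 hκlow hε (sq_nonneg _) he0
    f1 le_rfl (by rw [hv3]) f6 f7 f8 f5 f2 herr0 (by linarith)

/-- the first moment from the variance -/
lemma first_of_var (S : Finset ℕ) (w : ℕ → ℝ) (x η L : ℝ) (hL : (S.card : ℝ) = L) (hx : 4 ≤ x) (hη : 0 < η)
    (hη1 : 7 * η ≤ 1 / 2)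
    (h : ∑ n ∈ S, (w n - x) ^ 2 ≤ L * (7 * η * x ^ 2 + 2 * x)) : ∑ n ∈ S, w n ≤ 3 * (L * x) := by
  have hL0 : 0 ≤ L := by rw [← hL]; exact Nat.cast_nonneg _
  have h1 : (∑ n ∈ S, (w n - x)) ^ 2 ≤ (S.card : ℝ) * ∑ n ∈ S, (w n - x) ^ 2 := sq_sum_le_card_mul_sum_sq
  have h2 : (∑ n ∈ S, (w n - x)) ^ 2 ≤ (L * x) ^ 2 := by
    refine h1.trans ?_
    rw [hL]
    calc L * ∑ n ∈ S, (w n - x) ^ 2 ≤ L * (L * (7 * η * x ^ 2 + 2 * x)) := mul_le_mul_of_nonneg_left h hL0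
      _ ≤ L * (L * x ^ 2) := by
          apply mul_le_mul_of_nonneg_left _ hL0
          apply mul_le_mul_of_nonneg_left _ hL0
          nlinarith
      _ = (L * x) ^ 2 := by ring
  have h3 := (abs_le_of_sq_le_sq' h2 (by nlinarith)).2
  have h4 : ∑ n ∈ S, (w n - x) = ∑ n ∈ S, w n - L * x := by
    rw [sum_sub_distrib, sum_const, nsmul_eq_mul, hL]
  rw [h4] at h3
  have : 0 ≤ L * x := by nlinarith
  linarith

set_option maxHeartbeats 4000000 in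
open Classical in
/-- almost primes in almost all windows, `x1 ≤ T V ≤ X2` -/
theorem mainT (F : ℕ → ℕ) (c g K : ℕ) (D : Dat F c g K)
    (θ τ ζ υ lm S : ℝ) (R : ℕ) (hζ : 0 < ζ) (h2 : 2 * ζ < τ) (h4 : τ ≤ 4 * ζ) (hζυ : ζ ≤ υ)
    (hυτ : υ < τ) (hlm : 0 < lm)
    (hJ : ∫ x in ζ..υ, (lm - lm / υ * x) / (τ - x) / x < Real.log (τ / ζ - 1) / τ)
    (hτθ : 2 * τ < θ) (hθ1 : θ ≤ 1) (hS : g < S) (hr : 1 / lm + S / υ ≤ R + 1) (ε : ℝ) (hε : 0 < ε)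
    (hε1 : ε ≤ 1) :
    ∃ (r : ℕ) (x1 κ0 : ℝ), 2 ≤ r ∧ 1 ≤ x1 ∧ 0 < κ0 ∧ ∀ X2 : ℝ, x1 ≤ X2 → ∀ᶠ X : ℕ in atTop, ∀ Z L : ℕ,
      (X : ℝ) ^ θ ≤ L → Z + L ≤ X →
      ∀ T : ℕ, x1 ≤ T * Vq (DQ F) ⌊(X : ℝ) ^ (1 / (r : ℝ))⌋₊ →
        T * Vq (DQ F) ⌊(X : ℝ) ^ (1 / (r : ℝ))⌋₊ ≤ X2 →
        ((Bad F X R T Z L ζ (κ0 * (T * Vq (DQ F) ⌊(X : ℝ) ^ (1 / (r : ℝ))⌋₊ / 4))).card : ℝ) ≤ ε * L := by
  have hτ0 : 0 < τ := by linarith
  have hτ1 : τ ≤ 1 := by linarith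
  have hυ0 : 0 < υ := by linarith
  have hυ1 : υ ≤ 1 := by linarith
  have hθ0 : 0 < θ := by linarith
  have hlmυ : 0 ≤ lm / υ := by positivity
  have hg0 : (0 : ℝ) ≤ g := Nat.cast_nonneg _
  obtain ⟨f0, F0, hf0, hF0, HL⟩ := lsw4 τ ζ υ lm (lm / υ) hζ h2 h4 hτ1 hζυ hυτ hlm.le hlmυ
    (by rw [div_mul_cancel₀ _ hυ0.ne']) hJ
  obtain ⟨C0, x0s, hC0, Hsec⟩ := second c D.hc
  obtain ⟨η, hη⟩ : ∃ η : ℝ, η = ε / 560 := ⟨_, rfl⟩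
  have hη0 : 0 < η := by rw [hη]; positivity
  have hη1 : η ≤ 1 := by rw [hη]; linarith
  obtain ⟨K1, y1, T1, η1, hη1', Hvar⟩ := variance c D.hc (7 * η / 9) (by positivity) (by linarith)
  obtain ⟨w3, η3, T3, hη3, Hsing⟩ := sing_avg c 1 1 one_pos le_rfl
  obtain ⟨T4, HT4⟩ := D.large (min η1 η3) (lt_min hη1' hη3)
  obtain ⟨v, Cv, hv, hCv, hV⟩ := D.V
  obtain ⟨m, r, G0, hmC, hm1, hr2, hrdef, hG1, hG2, hK1, -, -, hrζ, hrτ, hm⟩ :=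
    exists_cst θ τ ζ υ lm ε f0 1 1 C0 K1 K1 K1 hζ h2 hζυ hυτ hlm hτθ hθ1 hε hε1 hf0 one_pos one_pos
  obtain ⟨c1, hc1⟩ : ∃ c1 : ℝ, c1 = 1 + lm := ⟨_, rfl⟩
  obtain ⟨A, hA⟩ : ∃ A : ℝ, A = c1 * (1 + 3 * r) := ⟨_, rfl⟩
  obtain ⟨κ0, hκ0⟩ : ∃ κ0 : ℝ, κ0 = f0 / r := ⟨_, rfl⟩
  obtain ⟨R0, hR0⟩ : ∃ R0 : ℕ, R0 = 2 * (g + 1) * r := ⟨_, rfl⟩
  obtain ⟨x1, hx1⟩ : ∃ x1 : ℝ, x1 = 960 * (A * 2 ^ R0) ^ 2 / (κ0 ^ 2 * ε) + 160 / ε + 4 := ⟨_, rfl⟩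
  obtain ⟨γ, hγ⟩ : ∃ γ : ℝ, γ = θ - 2 * τ := ⟨_, rfl⟩
  have hcst : Cst g θ τ ζ υ lm ε f0 c1 A κ0 x1 η γ C0 G0 m r R0 :=
    ⟨hc1, hA, hκ0, hR0, hx1, hη, hγ, hrdef, hf0, hε, hε1, hlm, hζ, h2, hζυ, hυτ, hτθ, hθ1, hG1,
      by rw [hγ]; exact hG2, hm1, hr2, by rw [hc1]; exact hm, hrζ⟩
  obtain ⟨hA0, hκ00, hx11, hr0, hc10, hγ0, -, -⟩ := hcst.pos
  have hx10 : 0 < x1 := by linarith
  refine ⟨r, x1, κ0, hr2, by linarith, hκ00, ?_⟩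
  intro X2 hX2
  have hX20 : 0 < X2 := by linarith
  obtain ⟨ηL, hηL, HY⟩ := HL (1 / (r : ℝ)) (by positivity) hrζ hrτ
  have hc0 : (0 : ℝ) < c := by exact_mod_cast D.hc
  -- a bound for `v`
  obtain ⟨v', hv'⟩ : ∃ v' : ℝ, v' = min v (Real.log 3) := ⟨_, rfl⟩
  have hlog3 : 0 < Real.log 3 := Real.log_pos (by norm_num)
  have hv'0 : 0 < v' := by rw [hv']; exact lt_min hv hlog3
  have hv'1 : v' ≤ Real.log 3 := by rw [hv']; exact min_le_right _ _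
  have hv'v : v' ≤ v := by rw [hv']; exact min_le_left _ _
  have hlog : Tendsto (fun q : ℕ => Real.log (q : ℝ)) atTop atTop :=
    Real.tendsto_log_atTop.comp tendsto_natCast_atTop_atTop
  obtain ⟨T0, hT0⟩ : ∃ T0 : ℕ, T0 = T1 + T3 + T4 + 1 := ⟨_, rfl⟩
  obtain ⟨Yb, hYb⟩ := exists_nat_ge (640 * A ^ 2 * (9 * (r : ℝ) ^ 3) / (κ0 ^ 2 * ε))
  have ev1 := merg F c D.per D.mer r hr2 υ (min ηL 1) hυ1 (lt_min hηL one_pos)
  have ev2 := Pool.Agent.Y879.GL.level_ok r hr2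
  have ev3 := y_ge r hr2 (x0s + y1 + w3 + Yb * c + 1)
  have ev4 := hlog.eventually_ge_atTop (2 * r * Cv * T0 / x1)
  have ev4' := hlog.eventually_ge_atTop 2
  have ev5 := logpow_rpow 2 (9 / (7 * η) * (X2 / v') ^ 2) (θ / 2) (by positivity) (by positivity)
  have ev6 := logpow_rpow 3 (16 * (X2 / v') ^ 2 * (A * (c : ℝ) ^ R0) ^ 2 / (κ0 ^ 2 * x1 ^ 2) * (20 / (ε * v')))
    (γ / 2) (by positivity) (by positivity)
  have ev7 := logpow_rpow 1 ((X2 / v') * (4 * c) * (20 / ε)) ζ (by positivity) hζ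
  have ev8 := logpow_rpow 1 (4 + K) ζ (by positivity) hζ
  have ev9 := logpow_rpow 1 ((1 + K) * (3 : ℝ) ^ g) (S - g) (by positivity) (by linarith)
  have ev10 := logpow_rpow K ((1 + K) * (1 + X2 / v') ^ K) (1 / (2 * r : ℝ)) (by positivity) (by positivity)
  have ev11 := logpow_rpow 1 (1 + X2 / v') 1 (by positivity) one_pos
  have ev12 := logpow_rpow 1 ((1 + K) * (3 : ℝ) ^ g) 1 (by positivity) one_pos
  filter_upwards [ev1, ev2, ev3, ev4, ev4', ev5, ev6, ev7, ev8, ev9, ev10, ev11, ev12,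
    eventually_ge_atTop 2] with
    X hmer hlev hyg hT0log hlq2 hE5 hE6 hE7 hE8 hE9 hE10 hE11 hE12 hX2'
  clear ev1 ev2 ev3 ev4 ev4' ev5 ev6 ev7 ev8 ev9 ev10 ev11 ev12 hlog HL
  obtain ⟨g1, g2, g3, g4, g5⟩ := hlev
  obtain ⟨y, hy⟩ : ∃ y, y = ⌊(X : ℝ) ^ (1 / (r : ℝ))⌋₊ := ⟨_, rfl⟩
  intro Z L hXL hZL T hT1 hT2
  have hyK1 := pow_le θ K1 r X L hK1 hr2 (by omega) hXL
  rw [← hy] at hmer g1 g2 g3 g4 hyg hT1 hT2 hyK1 ⊢
  have hX1 : (1 : ℝ) ≤ X := by exact_mod_cast (by omega : 1 ≤ X)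
  have hX0 : (0 : ℝ) < X := by linarith
  have hL0 : (0 : ℝ) < L := lt_of_lt_of_le (by positivity) hXL
  have hy1 : 1 ≤ y := by omega
  have hyr0 : (0 : ℝ) < y := by exact_mod_cast hy1
  have hlq0 : 0 < Real.log X := by linarith
  have hly0 : 0 < Real.log y := by linarith
  obtain ⟨hV1, hV2⟩ := hV y (by omega)
  obtain ⟨x, hx⟩ : ∃ x, x = T * Vq (DQ F) y := ⟨_, rfl⟩
  have hV0 : 0 < Vq (DQ F) y := Vq_pos (DQ F) D.adm y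
  have hTr : (0 : ℝ) ≤ T := Nat.cast_nonneg _
  -- bounds for `T`
  have hTlow : T0 ≤ T := by
    have a1 : x1 ≤ T * (Cv / Real.log y) := hT1.trans (mul_le_mul_of_nonneg_left hV2 hTr)
    rw [mul_div_assoc', le_div_iff₀ hly0] at a1
    rw [div_le_iff₀ hx10] at hT0log
    rw [div_le_iff₀ (by positivity)] at g2
    have a2 : 2 * r * Cv * (T0 : ℝ) ≤ 2 * r * Cv * T := by
      calc 2 * r * Cv * (T0 : ℝ) ≤ Real.log X * x1 := hT0log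
        _ ≤ Real.log y * (2 * r) * x1 := mul_le_mul_of_nonneg_right g2 hx10.le
        _ = 2 * r * (x1 * Real.log y) := by ring
        _ ≤ 2 * r * (T * Cv) := mul_le_mul_of_nonneg_left a1 (by positivity)
        _ = 2 * r * Cv * T := by ring
    have a3 : (T0 : ℝ) ≤ T := le_of_mul_le_mul_left a2 (by positivity)
    exact_mod_cast a3
  have hTlog : (T : ℝ) ≤ X2 / v' * Real.log X := by
    have a1 : T * (v' / Real.log X) ≤ X2 := by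
      refine le_trans ?_ hT2
      apply mul_le_mul_of_nonneg_left _ hTr
      refine le_trans ?_ hV1
      exact div_le_div₀ hv.le hv'v hly0 g3
    rw [mul_div_assoc', div_le_iff₀ hlq0] at a1
    rw [div_mul_eq_mul_div, le_div_iff₀ hv'0]
    exact a1
  have hT1log : (1 : ℝ) + T ≤ (1 + X2 / v') * Real.log X := by
    rw [add_mul, one_mul]
    linarith
  have hXT : (1 : ℝ) + T ≤ X := by
    rw [pow_one, Real.rpow_one] at hE11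
    exact hT1log.trans hE11
  -- the sizes
  have hsize : ∀ m ∈ Ioc Z (Z + L + T), (F m : ℝ) ≤ K * (3 : ℝ) ^ g * (X : ℝ) ^ g := by
    intro m hm
    rw [mem_Ioc] at hm
    have a1 : (F m : ℝ) ≤ K * ((m : ℝ) + 1) ^ g := by exact_mod_cast D.size m
    have a2 : (m : ℝ) + 1 ≤ 3 * X := by
      have a3 : (m : ℝ) ≤ X + T := by exact_mod_cast (by omega : m ≤ X + T)
      linarith only [a3, hXT, hX0]
    calc (F m : ℝ) ≤ K * ((m : ℝ) + 1) ^ g := a1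
      _ ≤ K * (3 * (X : ℝ)) ^ g := by gcongr
      _ = _ := by rw [mul_pow]; ring
  have h3g : K * (3 : ℝ) ^ g ≤ ((1 + K) * (3 : ℝ) ^ g) * Real.log X ^ 1 := by
    have a1 : (0 : ℝ) ≤ 3 ^ g := by positivity
    have a2 : (K : ℝ) * (3 : ℝ) ^ g ≤ (1 + K) * (3 : ℝ) ^ g := by
      apply mul_le_mul_of_nonneg_right _ a1
      linarith only
    rw [pow_one]
    refine a2.trans ?_
    apply le_mul_of_one_le_right (by positivity) g5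
  have hNS : ∀ m ∈ Ioc Z (Z + L + T), (F m : ℝ) ≤ (X : ℝ) ^ S := by
    intro m hm
    refine (hsize m hm).trans ?_
    calc K * (3 : ℝ) ^ g * (X : ℝ) ^ g ≤ (X : ℝ) ^ (S - g) * (X : ℝ) ^ g :=
          mul_le_mul_of_nonneg_right (h3g.trans hE9) (by positivity)
      _ = (X : ℝ) ^ S := by
          rw [← Real.rpow_natCast (X : ℝ) g, ← Real.rpow_add hX0]
          congr 1
          ring
  have hyR0r : (X : ℝ) ^ (g + 1) ≤ (y : ℝ) ^ R0 := by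
    rw [← Real.log_le_log_iff (by positivity) (by positivity), Real.log_pow, Real.log_pow]
    rw [div_le_iff₀ (by positivity)] at g2
    rw [hR0]
    push_cast
    calc ((g : ℝ) + 1) * Real.log X ≤ ((g : ℝ) + 1) * (Real.log y * (2 * r)) :=
          mul_le_mul_of_nonneg_left g2 (by positivity)
      _ = _ := by ring
  have hyR0 : ∀ m ∈ Ioc Z (Z + L + T), 1 ≤ F m ∧ F m ≤ y ^ R0 := by
    intro m hm
    refine ⟨Nat.one_le_iff_ne_zero.2 (D.ne0 m), ?_⟩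
    have a1 : (F m : ℝ) ≤ (X : ℝ) ^ (g + 1) := by
      refine (hsize m hm).trans ?_
      rw [pow_succ, mul_comm ((X : ℝ) ^ g)]
      apply mul_le_mul_of_nonneg_right _ (by positivity)
      rw [Real.rpow_one] at hE12
      exact h3g.trans hE12
    exact_mod_cast a1.trans hyR0r
  have hDy : ⌊(X : ℝ) ^ τ⌋₊ ≤ y ^ R0 := by
    have a1 : ((⌊(X : ℝ) ^ τ⌋₊ : ℕ) : ℝ) ≤ (X : ℝ) ^ (g + 1) := by
      refine (Nat.floor_le (by positivity)).trans ?_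
      calc (X : ℝ) ^ τ ≤ (X : ℝ) ^ (1 : ℝ) := Real.rpow_le_rpow_of_exponent_le hX1 hτ1
        _ = (X : ℝ) ^ 1 := by rw [Real.rpow_one, pow_one]
        _ ≤ (X : ℝ) ^ (g + 1) := pow_le_pow_right₀ hX1 (by omega)
    exact_mod_cast a1.trans hyR0r
  -- no common primes
  have hKy : K * (T + 1) ^ K ≤ y := by
    have a1 : (K : ℝ) * ((T : ℝ) + 1) ^ K ≤ (X : ℝ) ^ (1 / (2 * r : ℝ)) := by
      refine le_trans ?_ hE10
      calc (K : ℝ) * ((T : ℝ) + 1) ^ K ≤ (1 + K) * ((1 + X2 / v') * Real.log X) ^ K := by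
            apply mul_le_mul (by linarith) _ (by positivity) (by positivity)
            exact pow_le_pow_left₀ (by positivity) (by linarith) K
        _ = (1 + K) * (1 + X2 / v') ^ K * Real.log X ^ K := by rw [mul_pow]; ring
    have a2 : (X : ℝ) ^ (1 / (2 * r : ℝ)) ≤ y := by
      rw [← Real.log_le_log_iff (by positivity) hyr0, Real.log_rpow hX0]
      refine le_trans (le_of_eq ?_) g2
      field_simp
    exact_mod_cast a1.trans a2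
  have hncol : ∀ n h h' : ℕ, h ≠ h' → h ≤ T → h' ≤ T → ∀ p : ℕ, p.Prime → y < p → p ∣ F (n + h) →
        p ∣ F (n + h') → False := fun n h h' hne hh hh' p hp hyp h1 h2 =>
    D.col T n h h' hne hh hh' p hp (lt_of_le_of_lt hKy hyp) h1 h2
  -- the moments
  have hlarge1 : ∀ t ∈ Icc 1 T, ((((pz y).filter (fun p : ℕ => T < p ∧ CoG (DQ F) p t)).card : ℕ) : ℝ) ≤ η1 * T :=
    fun t ht => (HT4 T (by omega) y t ht).trans (mul_le_mul_of_nonneg_right (min_le_left _ _) hTr)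
  have hlarge3 : ∀ t ∈ Icc 1 T, ((((pz y).filter (fun p : ℕ => T < p ∧ CoG (DQ F) p t)).card : ℕ) : ℝ) ≤ η3 * T :=
    fun t ht => (HT4 T (by omega) y t ht).trans (mul_le_mul_of_nonneg_right (min_le_right _ _) hTr)
  have hT2L : (T : ℝ) ^ 2 ≤ 7 * η / 9 * √(L : ℝ) := by
    have a1 : (T : ℝ) ^ 2 ≤ (X2 / v') ^ 2 * Real.log X ^ 2 := by
      rw [← mul_pow]
      exact pow_le_pow_left₀ hTr hTlog 2
    have a2 : (X : ℝ) ^ (θ / 2) ≤ √(L : ℝ) := by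
      rw [Real.sqrt_eq_rpow]
      calc (X : ℝ) ^ (θ / 2) = ((X : ℝ) ^ θ) ^ (1 / 2 : ℝ) := by
            rw [← Real.rpow_mul hX0.le]
            congr 1
            ring
        _ ≤ (L : ℝ) ^ (1 / 2 : ℝ) := Real.rpow_le_rpow (by positivity) hXL (by norm_num)
    have a3 := hE5.trans a2
    calc (T : ℝ) ^ 2 ≤ (X2 / v') ^ 2 * Real.log X ^ 2 := a1
      _ = 7 * η / 9 * (9 / (7 * η) * (X2 / v') ^ 2 * Real.log X ^ 2) := by field_simp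
      _ ≤ 7 * η / 9 * √(L : ℝ) := mul_le_mul_of_nonneg_left a3 (by positivity)
  have hvar := Hvar (DQ F) Z L y T (by omega) hyK1 (by omega) D.per D.adm (by linarith) hT2L hlarge1
  have hsing := (Hsing T (by omega) (DQ F) D.per D.adm y (by omega) hlarge3).2
  rw [← hx] at hT1 hT2 hvar hsing ⊢
  have hvar1 : ∑ n ∈ Ioc Z (Z + L), ((Wc (Sf (DQ F) y) n T : ℝ) - x) ^ 2 ≤ L * (7 * η * x ^ 2 + 2 * x) := by
    refine hvar.trans (le_of_eq ?_)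
    ring
  have hvar2 := first_of_var (Ioc Z (Z + L)) (fun n => (Wc (Sf (DQ F) y) n T : ℝ)) x η L (by
    rw [Nat.card_Ioc, Nat.add_sub_cancel_left]) (hx11.trans hT1) hη0 (by rw [hη]; linarith) hvar1
  have hsing' : ∑ H ∈ powersetCard 2 (Icc 1 T), Vq (QH (DQ F) H) y ≤ x ^ 2 := by
    refine hsing.trans (le_of_eq ?_)
    norm_num [Nat.factorial]
    ring
  obtain ⟨cU, cL, hb1, hb2, hb3, hb4⟩ := HY X hX2'
  have hMerL : Mer (pr X (1 / (r : ℝ)) υ) (tt X) (gg F y) (1 / (r : ℝ)) υ ηL :=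
    fun a b ha hab hb => (hmer a b ha hab hb).trans (min_le_left _ _)
  have hMer1 : Mer (pr X (1 / (r : ℝ)) υ) (tt X) (gg F y) (1 / (r : ℝ)) υ 1 :=
    fun a b ha hab hb => (hmer a b ha hab hb).trans (min_le_right _ _)
  have hKζ : (4 : ℝ) + K < (X : ℝ) ^ ζ := by
    rw [pow_one] at hE8
    have hK0 : (0 : ℝ) ≤ K := Nat.cast_nonneg _
    nlinarith
  exact oneX hcst F c K D S R hr X2 v' hX2 hv'0 hv'1 X y T Z L hX2' hy hy1 hXL hMer1 cL (fun U => (hb1 U).2)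
    (fun U hU hne => hb2 U hU (Or.inr hne)) (fun N => (hb3 N).1)
    (hb4 (gg F y) (fun p _ => gg_nonneg F y p) hMerL).1 hNS x hT1 hlq2 hTlog hvar1 hvar2
    hsing' (fun P a A hP ha hD hs => Hsec m hmC (y ^ (16 * (C0 * m))) y (by omega) hy1 le_rfl F D.per T Z L R0 P a A
      ⌊(X : ℝ) ^ τ⌋₊ hncol hP ha hD hDy hs hyR0) Yb hYb (by exact_mod_cast (by omega : Yb * c ≤ y)) hE6 hE7
    (by linarith) (by linarith)

/-- the parameters of the sieve -/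
lemma params (g : ℕ) (hg : 1 ≤ g) (θ : ℝ) (R : ℕ) (hθ : 0 < θ) (hR : 1 / 8 + 25 * g / (12 * θ) < R) :
    ∃ τ S : ℝ, 4 / 9 * θ ≤ τ ∧ 2 * τ < θ ∧ (g : ℝ) < S ∧ 9 / 8 + S / (24 / 25 * τ) ≤ R + 1 := by
  have hg0 : (0 : ℝ) < g := by exact_mod_cast hg
  obtain ⟨K, hK⟩ : ∃ K : ℝ, K = 25 * g / (12 * θ) := ⟨_, rfl⟩
  have hK0 : 0 < K := by rw [hK]; positivity
  obtain ⟨δ, hδ⟩ : ∃ δ : ℝ, δ = R + 1 - 9 / 8 - K := ⟨_, rfl⟩
  have hδ0 : 0 < δ := by rw [hδ, hK]; linarith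
  obtain ⟨s, hs⟩ : ∃ s : ℝ, s = min (δ / (2 * K + δ)) (1 / 9) := ⟨_, rfl⟩
  have hs0 : 0 < s := by rw [hs]; exact lt_min (by positivity) (by norm_num)
  have hs1 : s ≤ 1 / 9 := by rw [hs]; exact min_le_right _ _
  have hs2 : s * (2 * K + δ) ≤ δ := by
    have : s ≤ δ / (2 * K + δ) := by rw [hs]; exact min_le_left _ _
    rwa [le_div_iff₀ (by positivity)] at this
  refine ⟨θ / 2 * (1 - s), g * (1 + s), by nlinarith, by nlinarith, by nlinarith, ?_⟩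
  have h1 : g * (1 + s) / (24 / 25 * (θ / 2 * (1 - s))) = K * (1 + s) / (1 - s) := by
    rw [hK]
    have : 1 - s ≠ 0 := by linarith
    field_simp
    ring
  rw [h1]
  have h2 : K * (1 + s) / (1 - s) ≤ K + δ := by
    rw [div_le_iff₀ (by linarith)]
    nlinarith
  linarith

open Classical in
/-- **Almost primes in almost all windows of logarithmic length.** -/
theorem final (F : ℕ → ℕ) (c g K : ℕ) (D : Dat F c g K) (θ ε : ℝ) (R : ℕ) (hθ : 0 < θ) (hθ1 : θ ≤ 1)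
    (hR : 1 / 8 + 25 * g / (12 * θ) < R) (hε : 0 < ε) :
    ∃ κ Λ : ℝ, 0 < κ ∧ 0 < Λ ∧ ∀ lam : ℝ, Λ ≤ lam → ∀ᶠ X : ℕ in atTop, ∀ Z L : ℕ,
      (X : ℝ) ^ θ ≤ L → Z + L ≤ X →
      (((Ioc Z (Z + L)).filter (fun n =>
        (((Ioc n (n + ⌊lam * Real.log X⌋₊)).filter (fun m => (F m).primeFactorsList.length ≤ R ∧
          ∀ p : ℕ, p.Prime → p ∣ F m → (X : ℝ) ^ (θ / 9) ≤ p)).card : ℝ) < κ * lam)).card : ℝ) ≤ ε * L := by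
  obtain ⟨τ, S, h1, h2, h3, h4⟩ := params g D.hg θ R hθ hR
  have hτ : 0 < τ := by linarith
  obtain ⟨ε', hε'⟩ : ∃ ε' : ℝ, ε' = min ε 1 := ⟨_, rfl⟩
  have hε'0 : 0 < ε' := by rw [hε']; exact lt_min hε one_pos
  have hε'1 : ε' ≤ 1 := by rw [hε']; exact min_le_right _ _
  have hε'ε : ε' ≤ ε := by rw [hε']; exact min_le_left _ _
  have hJ := Pool.Agent.Y882.KW.cond_A τ (8 / 9) hτ (by norm_num) (by norm_num)
  obtain ⟨r, x1, κ0, hr2, hx1, hκ0, hmain⟩ := mainT F c g K D θ τ (τ / 4) (24 / 25 * τ) (8 / 9) S R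
    (by positivity) (by linarith) (by linarith) (by linarith) (by linarith) (by norm_num) hJ h2 hθ1 h3
    (by norm_num at h4 ⊢; exact h4) ε' hε'0 hε'1
  obtain ⟨v, Cv, hv, hCv, hV⟩ := D.V
  have hr0 : (0 : ℝ) < r := by exact_mod_cast (by omega : 0 < r)
  refine ⟨κ0 * v / 8, 2 * x1 / v, by positivity, by positivity, ?_⟩
  intro lam hlam
  have hlam0 : 0 < lam := lt_of_lt_of_le (by positivity) hlam
  have hlx : x1 ≤ lam * v / 2 := by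
    rw [div_le_iff₀ hv] at hlam
    linarith
  obtain ⟨X2, hX2⟩ : ∃ X2 : ℝ, X2 = max x1 (2 * r * Cv * lam) := ⟨_, rfl⟩
  have hlog : Tendsto (fun q : ℕ => Real.log (q : ℝ)) atTop atTop :=
    Real.tendsto_log_atTop.comp tendsto_natCast_atTop_atTop
  filter_upwards [hmain X2 (by rw [hX2]; exact le_max_left _ _), Pool.Agent.Y879.GL.level_ok r hr2,
    hlog.eventually_ge_atTop (2 / lam), eventually_ge_atTop 2] with X hX hlev hbig hX2'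
  obtain ⟨g1, g2, g3, g4, g5⟩ := hlev
  obtain ⟨y, hy⟩ : ∃ y, y = ⌊(X : ℝ) ^ (1 / (r : ℝ))⌋₊ := ⟨_, rfl⟩
  rw [← hy] at hX g1 g2 g3 g4
  intro Z L hXL hZL
  have hlX : 0 < Real.log X := by linarith
  have hly : 0 < Real.log y := by linarith
  have hlm : 2 ≤ lam * Real.log X := by
    rw [div_le_iff₀ hlam0] at hbig
    linarith
  obtain ⟨T, hT⟩ : ∃ T : ℕ, T = ⌊lam * Real.log X⌋₊ := ⟨_, rfl⟩
  have hT2 : (T : ℝ) ≤ lam * Real.log X := by rw [hT]; exact Nat.floor_le (by linarith)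
  have hT3 : lam * Real.log X / 2 ≤ T := by
    have := Nat.lt_floor_add_one (lam * Real.log X)
    rw [← hT] at this
    linarith
  obtain ⟨hV1, hV2⟩ := hV y (by omega)
  have hV0 : 0 < Vq (DQ F) y := Vq_pos (DQ F) D.adm y
  have hTV1 : lam * v / 2 ≤ T * Vq (DQ F) y := by
    have a1 : lam * Real.log X / 2 * (v / Real.log y) ≤ T * Vq (DQ F) y :=
      mul_le_mul hT3 hV1 (by positivity) (Nat.cast_nonneg _)
    refine le_trans ?_ a1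
    rw [mul_div_assoc', le_div_iff₀ hly]
    have : lam * v / 2 * Real.log y ≤ lam * v / 2 * Real.log X := mul_le_mul_of_nonneg_left g3 (by positivity)
    linarith
  have hTV2 : T * Vq (DQ F) y ≤ X2 := by
    rw [hX2]
    refine le_trans ?_ (le_max_right _ _)
    have a1 : T * Vq (DQ F) y ≤ lam * Real.log X * (Cv / Real.log y) :=
      mul_le_mul hT2 hV2 hV0.le (by positivity)
    refine a1.trans ?_
    rw [mul_div_assoc', div_le_iff₀ hly]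
    rw [div_le_iff₀ (by positivity)] at g2
    calc lam * Real.log X * Cv ≤ lam * (Real.log y * (2 * r)) * Cv := by gcongr
      _ = 2 * r * Cv * lam * Real.log y := by ring
  have hfin := hX Z L hXL hZL T (hlx.trans hTV1) hTV2
  refine le_trans ?_ (hfin.trans (mul_le_mul_of_nonneg_right hε'ε (by positivity)))
  have hX1 : (1 : ℝ) ≤ X := by exact_mod_cast (by omega : 1 ≤ X)
  have hsub : (Ioc Z (Z + L)).filter (fun n =>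
        (((Ioc n (n + ⌊lam * Real.log X⌋₊)).filter (fun m => (F m).primeFactorsList.length ≤ R ∧
          ∀ p : ℕ, p.Prime → p ∣ F m → (X : ℝ) ^ (θ / 9) ≤ p)).card : ℝ) < κ0 * v / 8 * lam) ⊆
      Bad F X R T Z L (τ / 4) (κ0 * (T * Vq (DQ F) y / 4)) := by
    intro n hn
    rw [mem_filter] at hn
    obtain ⟨hn1, hn2⟩ := hn
    unfold Bad
    rw [mem_filter]
    refine ⟨hn1, ?_⟩
    have h5 : κ0 * v / 8 * lam ≤ κ0 * (T * Vq (DQ F) y / 4) := by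
      have := mul_le_mul_of_nonneg_left hTV1 hκ0.le
      linarith
    refine lt_of_le_of_lt ?_ (hn2.trans_le h5)
    have h6 : (Good F X R T n (τ / 4)).card ≤
        ((Ioc n (n + ⌊lam * Real.log X⌋₊)).filter (fun m => (F m).primeFactorsList.length ≤ R ∧
          ∀ p : ℕ, p.Prime → p ∣ F m → (X : ℝ) ^ (θ / 9) ≤ p)).card := by
      apply card_le_card_of_injOn (fun h => n + h)
      · intro h hh
        unfold Good at hh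
        rw [mem_coe, mem_filter, mem_Icc] at hh
        obtain ⟨⟨k1, k2⟩, k3, k4⟩ := hh
        rw [mem_coe, mem_filter, mem_Ioc, ← hT]
        refine ⟨⟨by show n < n + h; omega, by show n + h ≤ n + T; omega⟩, k3, ?_⟩
        intro p hp hd
        refine le_trans ?_ (k4 p hp hd)
        apply Real.rpow_le_rpow_of_exponent_le hX1
        linarith
      · intro a _ a' _ haa
        simp only at haa
        omega
    exact_mod_cast h6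
  exact_mod_cast card_le_card hsub

end Pool.Agent.L0h41.LW
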