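import Pool.Agent.L0h41.LW.D
import Pool.Agent.TH464.PO.QuadAP
import Pool.Agent.Y882.SI.Quad
import Pool.Agent.Y882.SI.Sq

set_option autoImplicit false

/-!
# Quadratic polynomials
-/

namespace Pool.Agent.L0h41.LW

open Finset Filter
open Pool.Agent.W123.RP Pool.Agent.H373R2.T7 Pool.Agent.W123.RU Pool.Agent.TH464.PO Pool.Agent.TH464.PW
open Pool.Agent.W123.RU.Poly
open Pool.Agent.W23.DC Pool.Agent.Y882 Pool.Agent.Y882.KW Pool.Agent.Y882.SI
open Pool.Agent.Y882.PX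

/-- the absolute values of the values of a quadratic polynomial -/
def Fq (a b c : ℤ) (m : ℕ) : ℕ := (a * (m : ℤ) ^ 2 + b * m + c).natAbs

lemma DQ_iff (a b c : ℤ) (p m : ℕ) : DQ (Fq a b c) p m ↔ (p : ℤ) ∣ a * (m : ℤ) ^ 2 + b * m + c := by
  unfold DQ Fq
  exact Int.natCast_dvd.symm

lemma DQ_eq (a b c : ℤ) : DQ (Fq a b c) = Pool.Agent.W123.RU.Poly.Q (qs a b c) := by
  funext p m
  exact propext ((DQ_iff a b c p m).trans (qs_Q a b c p m).symm)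

/-- the discriminant -/
theorem disc_id (A B C n : ℤ) :
    4 * A * (A * n ^ 2 + B * n + C) = (2 * A * n + B) ^ 2 + (-(B ^ 2 - 4 * A * C)) := by ring

theorem quad_ne_zero (A B C : ℤ) (hΔ : ¬ IsSquare (B ^ 2 - 4 * A * C)) (n : ℤ) :
    A * n ^ 2 + B * n + C ≠ 0 := by
  intro h
  apply hΔ
  have := disc_id A B C n
  rw [h, mul_zero] at this
  exact ⟨2 * A * n + B, by linarith⟩

open Classical in
theorem nuB_quad (A B C : ℤ) (p : ℕ) (hp : p.Prime) (hpA : ¬ (p : ℤ) ∣ 2 * A) :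
    nuB (DQ (Fq A B C)) p = ro (QF (-(B ^ 2 - 4 * A * C))) 0 p := by
  have hpZ : Prime (p : ℤ) := Nat.prime_iff_prime_int.1 hp
  have hp0 : (0 : ℤ) < p := by exact_mod_cast hp.pos
  have hcop : IsCoprime (p : ℤ) (2 * A) := (Prime.coprime_iff_not_dvd hpZ).2 hpA
  obtain ⟨u, v, huv⟩ := hcop
  have hv : (p : ℤ) ∣ v * (2 * A) - 1 := ⟨-u, by linarith⟩
  have hiff : ∀ n : ℤ, (p : ℤ) ∣ A * n ^ 2 + B * n + C ↔
      (p : ℤ) ∣ (QF (-(B ^ 2 - 4 * A * C))).eval (2 * A * n + B) := by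
    intro n
    rw [QF_eval, ← disc_id]
    constructor
    · intro h
      exact h.mul_left _
    · intro h
      rcases hpZ.dvd_or_dvd h with h | h
      · exfalso
        have h2 : (p : ℤ) ∣ 2 * (2 * A) := by
          have e : (4 * A : ℤ) = 2 * (2 * A) := by ring
          rwa [e] at h
        rcases hpZ.dvd_or_dvd h2 with h3 | h3
        · exact hpA (h3.mul_right _)
        · exact hpA h3
      · exact h
  have hper : ∀ n m : ℤ, (p : ℤ) ∣ n - m → ((p : ℤ) ∣ (QF (-(B ^ 2 - 4 * A * C))).eval n ↔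
      (p : ℤ) ∣ (QF (-(B ^ 2 - 4 * A * C))).eval m) := by
    intro n m h
    rw [QF_eval, QF_eval]
    have h1 : (p : ℤ) ∣ (n ^ 2 + -(B ^ 2 - 4 * A * C)) - (m ^ 2 + -(B ^ 2 - 4 * A * C)) := by
      have e : (n ^ 2 + -(B ^ 2 - 4 * A * C)) - (m ^ 2 + -(B ^ 2 - 4 * A * C)) =
        (n - m) * (n + m) := by ring
      rw [e]
      exact h.mul_right _
    exact (dvd_iff_dvd_of_dvd_sub h1)
  have hperG : ∀ n m : ℤ, (p : ℤ) ∣ n - m → ((p : ℤ) ∣ A * n ^ 2 + B * n + C ↔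
      (p : ℤ) ∣ A * m ^ 2 + B * m + C) := by
    intro n m h
    have h1 : (p : ℤ) ∣ (A * n ^ 2 + B * n + C) - (A * m ^ 2 + B * m + C) := by
      have e : (A * n ^ 2 + B * n + C) - (A * m ^ 2 + B * m + C) =
        (n - m) * (A * (n + m) + B) := by ring
      rw [e]
      exact h.mul_right _
    exact (dvd_iff_dvd_of_dvd_sub h1)
  have hmodd : ∀ x : ℤ, (p : ℤ) ∣ ((x % p).toNat : ℤ) - x := by
    intro x
    rw [Int.toNat_of_nonneg (Int.emod_nonneg _ hp0.ne')]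
    exact (Int.dvd_self_sub_emod).neg_right.trans (by rw [neg_sub])
  have hmodlt : ∀ x : ℤ, (x % p).toNat < p := by
    intro x
    have h1 := Int.emod_lt_of_pos x hp0
    have h2 := Int.emod_nonneg x hp0.ne'
    omega
  have huniq : ∀ (x : ℤ) (r : ℕ), r < p → (p : ℤ) ∣ x - r → (x % p).toNat = r := by
    intro x r hr h
    have h1 : x % p = r := by
      have h2 : (x : ℤ) ≡ r [ZMOD p] := (Int.modEq_iff_dvd.2 (by
        have := dvd_neg.2 h
        rwa [neg_sub] at this))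
      rw [h2.eq]
      exact Int.emod_eq_of_lt (by positivity) (by exact_mod_cast hr)
    rw [h1]
    simp
  unfold nuB
  rw [ro_eq]
  refine card_nbij' (fun r : ℕ => ((2 * A * r + B) % p).toNat)
    (fun s : ℕ => ((v * ((s : ℤ) - B)) % p).toNat) ?_ ?_ ?_ ?_
  · intro r hr
    simp only [coe_filter, Set.mem_ofPred_eq, mem_range, DQ_iff, add_zero] at hr ⊢
    refine ⟨hmodlt _, ?_⟩
    rw [hper _ _ (hmodd _), ← hiff]
    exact hr.2
  · intro s hs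
    simp only [coe_filter, Set.mem_ofPred_eq, mem_range, DQ_iff, add_zero] at hs ⊢
    refine ⟨hmodlt _, ?_⟩
    rw [hperG _ _ (hmodd _), hiff, hper _ (s : ℤ)]
    · exact hs.2
    · have e : 2 * A * (v * ((s : ℤ) - B)) + B - s = (v * (2 * A) - 1) * (s - B) := by ring
      rw [e]
      exact hv.mul_right _
  · intro r hr
    simp only [coe_filter, Set.mem_ofPred_eq, mem_range] at hr
    apply huniq _ _ hr.1
    have h1 := hmodd (2 * A * r + B)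
    have e : v * ((((2 * A * r + B) % p).toNat : ℤ) - B) - r =
      v * ((((2 * A * r + B) % p).toNat : ℤ) - (2 * A * r + B)) + (v * (2 * A) - 1) * r := by ring
    rw [e]
    exact dvd_add (h1.mul_left _) (hv.mul_right _)
  · intro s hs
    simp only [coe_filter, Set.mem_ofPred_eq, mem_range] at hs
    apply huniq _ _ hs.1
    have h1 := hmodd (v * ((s : ℤ) - B))
    have e : 2 * A * (((v * ((s : ℤ) - B)) % p).toNat : ℤ) + B - s =
      2 * A * ((((v * ((s : ℤ) - B)) % p).toNat : ℤ) - v * (s - B)) +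
        (v * (2 * A) - 1) * (s - B) := by ring
    rw [e]
    exact dvd_add (h1.mul_left _) (hv.mul_right _)

theorem mer_q (A B C : ℤ) (hA : A ≠ 0) (hΔ : ¬ IsSquare (B ^ 2 - 4 * A * C)) (ε₁ υ η : ℝ)
    (hε : 0 < ε₁) (hυ : υ ≤ 1) (hη : 0 < η) : ∀ᶠ X : ℕ in atTop,
      Mer (pr X ε₁ υ) (tt X) (gp (Fq A B C)) ε₁ υ η := by
  classical
  obtain ⟨Y0, hY0⟩ := mer_quad (-(B ^ 2 - 4 * A * C)) (by rwa [neg_neg]) ε₁ υ η hε hυ hη
  have ev : ∀ᶠ Y : ℕ in atTop, ((2 * A).natAbs : ℝ) + 1 ≤ (Y : ℝ) ^ ε₁ :=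
    ((tendsto_rpow_atTop hε).comp tendsto_natCast_atTop_atTop).eventually_ge_atTop _
  filter_upwards [eventually_ge_atTop Y0, ev, eventually_ge_atTop 3] with Y h0 h1 h3
  have h := hY0 Y h0
  intro a b ha hab hb
  have h2 := h a b ha hab hb
  have e : ∑ p ∈ (pr Y ε₁ υ).filter (fun p => a ≤ tt Y p ∧ tt Y p < b), gp (Fq A B C) p =
      ∑ p ∈ (pr Y ε₁ υ).filter (fun p => a ≤ tt Y p ∧ tt Y p < b),
      (ro (QF (-(B ^ 2 - 4 * A * C))) 0 p : ℝ) / p := by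
    apply sum_congr rfl
    intro p hp
    rw [mem_filter] at hp
    have hp2 := mem_pr.1 hp.1
    obtain ⟨_, hpp, hp3, _⟩ := hp2
    have hpY : (Y : ℝ) ^ ε₁ ≤ p := (le_tt_iff (by omega) hpp.pos _).1 hp3
    unfold gp
    rw [nuB_quad A B C p hpp]
    intro hd
    have h4 : p ∣ (2 * A).natAbs := Int.natCast_dvd.1 hd
    have h5 := Nat.le_of_dvd (Int.natAbs_pos.2 (mul_ne_zero (by norm_num) hA)) h4
    have h6 : (p : ℝ) ≤ ((2 * A).natAbs : ℝ) := by exact_mod_cast h5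
    linarith
  rw [e]
  exact h2

open Classical in
theorem sq_q (A B C : ℤ) (hA : A ≠ 0) (hΔ : ¬ IsSquare (B ^ 2 - 4 * A * C)) (q : ℕ) (hq : q.Prime)
    (hqa : A.natAbs + (B ^ 2 - 4 * A * C).natAbs < q) (Z L : ℕ) :
    (((Ioc Z (Z + L)).filter (fun n => q ^ 2 ∣ Fq A B C n)).card : ℝ) ≤
      (2 : ℕ) * ((L : ℝ) / (q : ℝ) ^ 2 + 1) := by
  have e0 : (((Ioc Z (Z + L)).filter (fun n => q ^ 2 ∣ Fq A B C n)).card : ℝ) =
      (((Icc 1 L).filter (fun j : ℕ => ((q ^ 2 : ℕ) : ℤ) ∣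
        A * ((Z + j : ℕ) : ℤ) ^ 2 + B * ((Z + j : ℕ) : ℤ) + C)).card : ℝ) := by
    congr 1
    apply Pool.Agent.Y879.AP.count_shift Z L
    intro n
    unfold Fq
    rw [Int.natCast_dvd, add_comm Z n]
  rw [e0]
  rcases ((Icc 1 L).filter (fun j : ℕ => ((q ^ 2 : ℕ) : ℤ) ∣
        A * ((Z + j : ℕ) : ℤ) ^ 2 + B * ((Z + j : ℕ) : ℤ) + C)).eq_empty_or_nonempty with h | ⟨j0, hj0⟩
  · rw [h]
    simp only [card_empty, Nat.cast_zero]
    positivity
  rw [mem_filter] at hj0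
  have hqZ : Prime (q : ℤ) := Nat.prime_iff_prime_int.1 hq
  have hqA : ¬ (q : ℤ) ∣ A := by
    intro hd
    have h4 : q ∣ A.natAbs := Int.natCast_dvd.1 hd
    have h5 := Nat.le_of_dvd (Int.natAbs_pos.2 hA) h4
    omega
  have hcop : IsCoprime ((q ^ 2 : ℕ) : ℤ) A := by
    push_cast
    exact IsCoprime.pow_left ((Prime.coprime_iff_not_dvd hqZ).2 hqA)
  obtain ⟨u, v, huv⟩ := hcop
  have hΔ0 : B ^ 2 - 4 * A * C ≠ 0 := by
    intro h
    apply hΔ
    rw [h]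
    exact ⟨0, by simp⟩
  have hsub : (Icc 1 L).filter (fun j : ℕ => ((q ^ 2 : ℕ) : ℤ) ∣
        A * ((Z + j : ℕ) : ℤ) ^ 2 + B * ((Z + j : ℕ) : ℤ) + C) ⊆
      (Icc 1 L).filter (fun n : ℕ => ((q ^ 2 : ℕ) : ℤ) ∣ (n : ℤ) - (j0 : ℤ)) ∪
      (Icc 1 L).filter (fun n : ℕ => ((q ^ 2 : ℕ) : ℤ) ∣
        (n : ℤ) - (-(2 * (Z : ℤ) + j0) - v * B)) := by
    intro j hj
    rw [mem_filter] at hj
    rw [mem_union, mem_filter, mem_filter]
    obtain ⟨n, hn⟩ : ∃ n : ℤ, n = ((Z + j : ℕ) : ℤ) := ⟨_, rfl⟩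
    obtain ⟨n0, hn0⟩ : ∃ n0 : ℤ, n0 = ((Z + j0 : ℕ) : ℤ) := ⟨_, rfl⟩
    rw [← hn] at hj
    rw [← hn0] at hj0
    have e1 : (j : ℤ) - (j0 : ℤ) = n - n0 := by
      rw [hn, hn0]
      push_cast
      ring
    have e2 : (j : ℤ) - (-(2 * (Z : ℤ) + j0) - v * B) = n + n0 + v * B := by
      rw [hn, hn0]
      push_cast
      ring
    rw [e1, e2]
    have h3 : ((q ^ 2 : ℕ) : ℤ) ∣ (n - n0) * (A * (n + n0) + B) := by
      have := dvd_sub hj.2 hj0.2
      have e : A * n ^ 2 + B * n + C - (A * n0 ^ 2 + B * n0 + C) = (n - n0) * (A * (n + n0) + B) := by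
        ring
      rwa [e] at this
    by_cases h4 : (q : ℤ) ∣ n - n0
    · have h5 : ¬ (q : ℤ) ∣ A * (n + n0) + B := by
        intro h6
        have h7 : (q : ℤ) ∣ 2 * A * n + B := by
          have := dvd_add (h4.mul_left A) h6
          have e : A * (n - n0) + (A * (n + n0) + B) = 2 * A * n + B := by ring
          rwa [e] at this
        have h9 : (q : ℤ) ∣ A * n ^ 2 + B * n + C := by
          refine dvd_trans ?_ hj.2
          push_cast
          exact dvd_pow_self _ (by norm_num)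
        have h10 : (q : ℤ) ∣ B ^ 2 - 4 * A * C := by
          have h11 : (q : ℤ) ∣ (2 * A * n + B) ^ 2 := dvd_pow h7 (by norm_num)
          have h12 := dvd_sub h11 (h9.mul_left (4 * A))
          have e : (2 * A * n + B) ^ 2 - 4 * A * (A * n ^ 2 + B * n + C) = B ^ 2 - 4 * A * C := by
            ring
          rwa [e] at h12
        have h12 : q ∣ (B ^ 2 - 4 * A * C).natAbs := Int.natCast_dvd.1 h10
        have := Nat.le_of_dvd (Int.natAbs_pos.2 hΔ0) h12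
        omega
      left
      refine ⟨hj.1, ?_⟩
      have h6 : IsCoprime ((q ^ 2 : ℕ) : ℤ) (A * (n + n0) + B) := by
        push_cast
        apply IsCoprime.pow_left
        exact (Prime.coprime_iff_not_dvd hqZ).2 h5
      exact h6.dvd_of_dvd_mul_right h3
    · right
      refine ⟨hj.1, ?_⟩
      have h6 : IsCoprime ((q ^ 2 : ℕ) : ℤ) (n - n0) := by
        push_cast
        apply IsCoprime.pow_left
        exact (Prime.coprime_iff_not_dvd hqZ).2 h4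
      have h7 := h6.dvd_of_dvd_mul_left h3
      have e : n + n0 + v * B = v * (A * (n + n0) + B) + (n + n0) * (u * ((q ^ 2 : ℕ) : ℤ)) := by
        linear_combination (-(n + n0)) * huv
      rw [e]
      exact dvd_add (h7.mul_left _) (((dvd_refl _).mul_left _).mul_left _)
  have hm : 0 < q ^ 2 := pow_pos hq.pos 2
  have c1 := class_count (q ^ 2) hm L (j0 : ℤ)
  have c2 := class_count (q ^ 2) hm L (-(2 * (Z : ℤ) + j0) - v * B)
  have h3 : (((Icc 1 L).filter (fun j : ℕ => ((q ^ 2 : ℕ) : ℤ) ∣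
        A * ((Z + j : ℕ) : ℤ) ^ 2 + B * ((Z + j : ℕ) : ℤ) + C)).card : ℝ) ≤
      (((Icc 1 L).filter (fun n : ℕ => ((q ^ 2 : ℕ) : ℤ) ∣ (n : ℤ) - (j0 : ℤ))).card : ℝ) +
      (((Icc 1 L).filter (fun n : ℕ => ((q ^ 2 : ℕ) : ℤ) ∣
        (n : ℤ) - (-(2 * (Z : ℤ) + j0) - v * B))).card : ℝ) := by
    exact_mod_cast (card_le_card hsub).trans (card_union_le _ _)
  refine h3.trans ((add_le_add c1 c2).trans (le_of_eq ?_))
  push_cast
  ring

lemma size_q (a b c : ℤ) (m : ℕ) : Fq a b c m ≤ (a.natAbs + b.natAbs + c.natAbs) * (m + 1) ^ 2 := by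
  unfold Fq
  have h1 : (a * (m : ℤ) ^ 2 + b * m + c).natAbs ≤
      a.natAbs * m ^ 2 + b.natAbs * m + c.natAbs := by
    calc (a * (m : ℤ) ^ 2 + b * m + c).natAbs ≤ (a * (m : ℤ) ^ 2 + b * m).natAbs + c.natAbs :=
          Int.natAbs_add_le _ _
      _ ≤ (a * (m : ℤ) ^ 2).natAbs + (b * m).natAbs + c.natAbs := by
          have := Int.natAbs_add_le (a * (m : ℤ) ^ 2) (b * m)
          omega
      _ = _ := by rw [Int.natAbs_mul, Int.natAbs_mul, Int.natAbs_pow, Int.natAbs_natCast]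
  refine h1.trans ?_
  have h2 : m ^ 2 ≤ (m + 1) ^ 2 := Nat.pow_le_pow_left (by omega) 2
  have h3 : m ≤ (m + 1) ^ 2 := by nlinarith
  have h4 : 1 ≤ (m + 1) ^ 2 := Nat.one_le_pow _ _ (by omega)
  calc a.natAbs * m ^ 2 + b.natAbs * m + c.natAbs ≤
      a.natAbs * (m + 1) ^ 2 + b.natAbs * (m + 1) ^ 2 + c.natAbs * (m + 1) ^ 2 := by
        apply add_le_add (add_le_add (Nat.mul_le_mul_left _ h2) (Nat.mul_le_mul_left _ h3))
        exact Nat.le_mul_of_pos_right _ h4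
    _ = _ := by ring

/-- no large common primes -/
lemma col_q (a b c : ℤ) (ha : a ≠ 0) (hΔ : ¬ IsSquare (b ^ 2 - 4 * a * c)) (K : ℕ) (hK2 : 2 ≤ K)
    (hKa : 2 * a.natAbs + a.natAbs ^ 2 + (b ^ 2 - 4 * a * c).natAbs ≤ K)
    (T n h h' : ℕ) (hne : h ≠ h') (hh : h ≤ T) (hh' : h' ≤ T) (p : ℕ) (hp : p.Prime)
    (hKp : K * (T + 1) ^ K < p) (h1 : p ∣ Fq a b c (n + h)) (h2 : p ∣ Fq a b c (n + h')) : False := by
  have hpZ : Prime (p : ℤ) := Nat.prime_iff_prime_int.1 hp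
  have e1 := (DQ_iff a b c p (n + h)).1 h1
  have e2 := (DQ_iff a b c p (n + h')).1 h2
  have hT1 : 1 ≤ T + 1 := by omega
  have hKT : K * (T + 1) ^ 2 < p := lt_of_le_of_lt (Nat.mul_le_mul_left _ (Nat.pow_le_pow_right hT1 hK2)) hKp
  have hKT' : K * 1 ≤ K * (T + 1) ^ 2 := Nat.mul_le_mul_left _ (Nat.one_le_pow _ _ hT1)
  have hTp : T + 1 < p := by
    have : T + 1 ≤ K * (T + 1) ^ 2 := by
      calc T + 1 = (T + 1) ^ 1 := (pow_one _).symm
        _ ≤ (T + 1) ^ 2 := Nat.pow_le_pow_right hT1 (by norm_num)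
        _ ≤ K * (T + 1) ^ 2 := Nat.le_mul_of_pos_left _ (by omega)
    omega
  have hpos : 0 < a.natAbs := Int.natAbs_pos.2 ha
  have hp2a : ¬ (p : ℤ) ∣ 2 * a := by
    intro hd
    have h4 : p ∣ (2 * a).natAbs := Int.natCast_dvd.1 hd
    have h5 : (2 * a).natAbs = 2 * a.natAbs := by rw [Int.natAbs_mul]; rfl
    have h6 := Nat.le_of_dvd (by omega) h4
    omega
  obtain ⟨k, hk⟩ : ∃ k : ℤ, k = (h : ℤ) - h' := ⟨_, rfl⟩
  have hk0 : k ≠ 0 := by
    rw [hk]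
    intro h0
    apply hne
    have : (h : ℤ) = h' := by linarith
    exact_mod_cast this
  have hkT : k.natAbs ≤ T := by
    rw [hk]
    omega
  have hpk : ¬ (p : ℤ) ∣ k := by
    intro hd
    have h4 : p ∣ k.natAbs := Int.natCast_dvd.1 hd
    have h5 := Nat.le_of_dvd (Int.natAbs_pos.2 hk0) h4
    omega
  obtain ⟨u, hu⟩ : ∃ u : ℤ, u = 2 * a * ((n + h : ℕ) : ℤ) + b := ⟨_, rfl⟩
  obtain ⟨u', hu'⟩ : ∃ u' : ℤ, u' = 2 * a * ((n + h' : ℕ) : ℤ) + b := ⟨_, rfl⟩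
  have f1 : (p : ℤ) ∣ u ^ 2 - (b ^ 2 - 4 * a * c) := by
    have := e1.mul_left (4 * a)
    rw [disc_id, ← hu] at this
    rwa [sub_eq_add_neg]
  have f2 : (p : ℤ) ∣ u' ^ 2 - (b ^ 2 - 4 * a * c) := by
    have := e2.mul_left (4 * a)
    rw [disc_id, ← hu'] at this
    rwa [sub_eq_add_neg]
  have huk : u - u' = 2 * a * k := by
    rw [hu, hu', hk]
    push_cast
    ring
  have f3 : (p : ℤ) ∣ u + u' := by
    have f4 : (p : ℤ) ∣ (2 * a * k) * (u + u') := by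
      have := dvd_sub f1 f2
      have e : u ^ 2 - (b ^ 2 - 4 * a * c) - (u' ^ 2 - (b ^ 2 - 4 * a * c)) = (u - u') * (u + u') := by ring
      rw [e, huk] at this
      exact this
    rcases hpZ.dvd_or_dvd f4 with f5 | f5
    · rcases hpZ.dvd_or_dvd f5 with f6 | f6
      · exact absurd f6 hp2a
      · exact absurd f6 hpk
    · exact f5
  have f6 : (p : ℤ) ∣ 4 * (a ^ 2 * k ^ 2 - (b ^ 2 - 4 * a * c)) := by
    have e : 4 * (a ^ 2 * k ^ 2 - (b ^ 2 - 4 * a * c)) = 4 * (u ^ 2 - (b ^ 2 - 4 * a * c)) -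
        (u + u') * (2 * u + (u - u')) := by
      have e3 : 4 * (a ^ 2 * k ^ 2) = (u - u') ^ 2 := by rw [huk]; ring
      linear_combination e3
    rw [e]
    exact dvd_sub (f1.mul_left _) (f3.mul_right _)
  have hp2 : ¬ (p : ℤ) ∣ 4 := by
    intro hd
    have h4 : p ∣ 4 := by exact_mod_cast hd
    have h5 : p ∣ 2 ^ 2 := h4
    have h6 := (Nat.prime_dvd_prime_iff_eq hp Nat.prime_two).1 (hp.dvd_of_dvd_pow h5)
    omega
  have f7 : (p : ℤ) ∣ a ^ 2 * k ^ 2 - (b ^ 2 - 4 * a * c) := (hpZ.dvd_or_dvd f6).resolve_left hp2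
  have hne0 : a ^ 2 * k ^ 2 - (b ^ 2 - 4 * a * c) ≠ 0 := by
    intro h0
    apply hΔ
    exact ⟨a * k, by linarith⟩
  have f8 : p ∣ (a ^ 2 * k ^ 2 - (b ^ 2 - 4 * a * c)).natAbs := Int.natCast_dvd.1 f7
  have f9 := Nat.le_of_dvd (Int.natAbs_pos.2 hne0) f8
  have f10 : (a ^ 2 * k ^ 2 - (b ^ 2 - 4 * a * c)).natAbs ≤
      a.natAbs ^ 2 * k.natAbs ^ 2 + (b ^ 2 - 4 * a * c).natAbs := by
    calc _ ≤ (a ^ 2 * k ^ 2).natAbs + (b ^ 2 - 4 * a * c).natAbs := Int.natAbs_sub_le _ _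
      _ = _ := by rw [Int.natAbs_mul, Int.natAbs_pow, Int.natAbs_pow]
  have f11 : k.natAbs ^ 2 ≤ (T + 1) ^ 2 := Nat.pow_le_pow_left (by omega) 2
  have f12 : a.natAbs ^ 2 * k.natAbs ^ 2 + (b ^ 2 - 4 * a * c).natAbs ≤ K * (T + 1) ^ 2 := by
    calc a.natAbs ^ 2 * k.natAbs ^ 2 + (b ^ 2 - 4 * a * c).natAbs ≤
        a.natAbs ^ 2 * (T + 1) ^ 2 + (b ^ 2 - 4 * a * c).natAbs * (T + 1) ^ 2 := by
          apply add_le_add (Nat.mul_le_mul_left _ f11)
          exact Nat.le_mul_of_pos_right _ (Nat.one_le_pow _ _ hT1)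
      _ = (a.natAbs ^ 2 + (b ^ 2 - 4 * a * c).natAbs) * (T + 1) ^ 2 := by ring
      _ ≤ K * (T + 1) ^ 2 := Nat.mul_le_mul_right _ (by omega)
  omega

/-- the data of a quadratic polynomial -/
theorem dat_q (a b c : ℤ) (ha : 0 < a)
    (hg : ∀ p : ℕ, p.Prime → ¬ ((p : ℤ) ∣ a ∧ (p : ℤ) ∣ b ∧ (p : ℤ) ∣ c))
    (hpar : ¬ (Even (a + b) ∧ Even c)) (hD : ¬ IsSquare (b ^ 2 - 4 * a * c)) :
    ∃ c0 K : ℕ, Dat (Fq a b c) c0 2 K := by
  classical
  have hsys := qs_sys a b c ha hg hpar hD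
  have hnoTr := qs_noTr a b c ha
  obtain ⟨c1, hc1, hQ⟩ := exists_c (qs a b c) hsys
  obtain ⟨K, hK⟩ : ∃ K : ℕ, K = 2 + (a.natAbs + b.natAbs + c.natAbs) +
    (2 * a.natAbs + a.natAbs ^ 2 + (b ^ 2 - 4 * a * c).natAbs) := ⟨_, rfl⟩
  refine ⟨c1 + 2, K, ?_⟩
  have hQ' : PerB (DQ (Fq a b c)) (c1 + 2) := by
    rw [DQ_eq]
    exact ⟨hQ.per, fun p hp => (hQ.few p hp).trans (by omega)⟩
  obtain ⟨v, Cv, hv, hCv, hV⟩ := V_bounds (qs a b c) hsys
  refine ⟨by omega, by norm_num, hQ', ?_, ?_, ?_, ?_, ?_, ?_, ?_, ?_⟩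
  · intro p hp
    rw [DQ_eq]
    exact adm (qs a b c) hsys p hp
  · intro m
    unfold Fq
    exact Int.natAbs_ne_zero.2 (quad_ne_zero a b c hD m)
  · intro m
    exact (size_q a b c m).trans (Nat.mul_le_mul_right _ (by omega))
  · intro T n h h' hne hh hh' p hp hKp h1 h2
    exact col_q a b c ha.ne' hD K (by omega) (by omega) T n h h' hne hh hh' p hp hKp h1 h2
  · intro η hη
    rw [DQ_eq]
    exact large_small (qs a b c) hsys hnoTr η hη
  · refine ⟨v, Cv, hv, hCv, ?_⟩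
    intro y hy
    have := hV y hy
    rw [DQ_eq]
    simpa using this
  · intro ε₁ υ η h1 h2 h3
    exact mer_q a b c ha.ne' hD ε₁ υ η h1 h2 h3
  · intro p hp hKp Z L
    have h1 := sq_q a b c ha.ne' hD p hp (by
      have : a.natAbs ≤ 2 * a.natAbs + a.natAbs ^ 2 := by omega
      omega) Z L
    refine h1.trans ?_
    apply mul_le_mul_of_nonneg_right _ (by positivity)
    push_cast
    have : (0 : ℝ) ≤ c1 := Nat.cast_nonneg _
    linarith

end Pool.Agent.L0h41.LW
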